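import Pool.Agent.U1.VF.Morse
import Pool.Agent.Y318.MN.Axm

/-! Morse functions are dense. -/

set_option autoImplicit false

open scoped Manifold ContDiff Topology Bundle
open Set Filter

universe u

namespace Pool.Agent.U1.VF

open Pool.Agent.Y318.MN (Nondeg)

variable {n : ℕ} {N : Type u} [TopologicalSpace N]
  [ChartedSpace (EuclideanSpace ℝ (Fin n)) N] [IsManifold (𝓡 n) ∞ N]

set_option linter.unusedSectionVars false

theorem hess_comp {u : EuclideanSpace ℝ (Fin n) → ℝ}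
    {θ : EuclideanSpace ℝ (Fin n) → EuclideanSpace ℝ (Fin n)} {p : EuclideanSpace ℝ (Fin n)}
    (hu : ContDiffAt ℝ ∞ u (θ p)) (hθ : ContDiffAt ℝ ∞ θ p) (hc : fderiv ℝ u (θ p) = 0)
    (hinj : ∀ w, fderiv ℝ (fderiv ℝ u) (θ p) w = 0 → w = 0)
    {θ' : EuclideanSpace ℝ (Fin n) → EuclideanSpace ℝ (Fin n)} (hθ' : ContDiffAt ℝ ∞ θ' (θ p))
    (h1 : (θ' ∘ θ) =ᶠ[𝓝 p] id) (h2 : (θ ∘ θ') =ᶠ[𝓝 (θ p)] id)
    (hp : θ' (θ p) = p) (v : EuclideanSpace ℝ (Fin n))
    (hv : fderiv ℝ (fderiv ℝ (u ∘ θ)) p v = 0) : v = 0 := by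
  have dθ : HasFDerivAt θ (fderiv ℝ θ p) p := (hθ.differentiableAt (by simp)).hasFDerivAt
  have dθ' : HasFDerivAt θ' (fderiv ℝ θ' (θ p)) (θ p) :=
    (hθ'.differentiableAt (by simp)).hasFDerivAt
  have e1 : (fderiv ℝ θ' (θ p)).comp (fderiv ℝ θ p) =
      ContinuousLinearMap.id ℝ (EuclideanSpace ℝ (Fin n)) := by
    have h3 := (dθ'.comp p dθ).fderiv
    rw [h1.fderiv_eq, fderiv_id] at h3
    exact h3.symm
  have e2 : (fderiv ℝ θ p).comp (fderiv ℝ θ' (θ p)) =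
      ContinuousLinearMap.id ℝ (EuclideanSpace ℝ (Fin n)) := by
    have dθ2 : HasFDerivAt θ (fderiv ℝ θ p) (θ' (θ p)) := by rw [hp]; exact dθ
    have h3 := (dθ2.comp (θ p) dθ').fderiv
    rw [h2.fderiv_eq, fderiv_id] at h3
    exact h3.symm
  have hev : fderiv ℝ (u ∘ θ) =ᶠ[𝓝 p] fun w => (fderiv ℝ u (θ w)).comp (fderiv ℝ θ w) := by
    have h3 : ∀ᶠ w in 𝓝 p, ContDiffAt ℝ 1 θ w := (hθ.of_le (by simp)).eventually (by simp)
    have h4 : ∀ᶠ w in 𝓝 (θ p), ContDiffAt ℝ 1 u w := (hu.of_le (by simp)).eventually (by simp)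
    filter_upwards [h3, hθ.continuousAt.eventually h4] with w hw1 hw2
    exact fderiv_comp w (hw2.differentiableAt (by simp)) (hw1.differentiableAt (by simp))
  have d1 : HasFDerivAt (fun w => fderiv ℝ u (θ w))
      ((fderiv ℝ (fderiv ℝ u) (θ p)).comp (fderiv ℝ θ p)) p := by
    have h3 : HasFDerivAt (fderiv ℝ u) (fderiv ℝ (fderiv ℝ u) (θ p)) (θ p) :=
      (((hu.fderiv_right (m := ∞) (by simp)).differentiableAt (by simp))).hasFDerivAt
    exact h3.comp p dθ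
  have d2 : HasFDerivAt (fderiv ℝ θ) (fderiv ℝ (fderiv ℝ θ) p) p :=
    (((hθ.fderiv_right (m := ∞) (by simp)).differentiableAt (by simp))).hasFDerivAt
  have d3 := d1.clm_comp d2
  rw [hev.fderiv_eq, d3.fderiv, hc] at hv
  have h5 : (fderiv ℝ (fderiv ℝ u) (θ p) (fderiv ℝ θ p v)).comp (fderiv ℝ θ p) = 0 := by
    have h6 : (0 : EuclideanSpace ℝ (Fin n) →L[ℝ] ℝ).comp (fderiv ℝ (fderiv ℝ θ) p v) +
      (fderiv ℝ (fderiv ℝ u) (θ p) (fderiv ℝ θ p v)).comp (fderiv ℝ θ p) = 0 := hv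
    rw [ContinuousLinearMap.zero_comp, zero_add] at h6
    exact h6
  have h7 : fderiv ℝ (fderiv ℝ u) (θ p) (fderiv ℝ θ p v) = 0 := by
    have h8 := congrArg (fun L : EuclideanSpace ℝ (Fin n) →L[ℝ] ℝ =>
      L.comp (fderiv ℝ θ' (θ p))) h5
    simp only [ContinuousLinearMap.comp_assoc, e2, ContinuousLinearMap.comp_id,
      ContinuousLinearMap.zero_comp] at h8
    exact h8
  have h9 := hinj _ h7
  have h10 := congrArg (fun L : EuclideanSpace ℝ (Fin n) →L[ℝ] EuclideanSpace ℝ (Fin n) => L v) e1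
  simp only [ContinuousLinearMap.comp_apply, h9, map_zero] at h10
  exact h10.symm

theorem nondeg_of_chart [T2Space N] {g : N → ℝ} (hg : ContMDiff (𝓡 n) 𝓘(ℝ, ℝ) ∞ g) (c : N) {z : N}
    (hz : z ∈ (chartAt (EuclideanSpace ℝ (Fin n)) c).source) (hC : Crit n g z)
    (hinj : ∀ w, fderiv ℝ (fderiv ℝ (fun v => g ((extChartAt (𝓡 n) c).symm v)))
      (extChartAt (𝓡 n) c z) w = 0 → w = 0) : Nondeg n g z := by
  intro χ hχ hzχ v hv
  set e := chartAt (EuclideanSpace ℝ (Fin n)) c with he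
  have heA : e ∈ IsManifold.maximalAtlas (𝓡 n) ∞ N := IsManifold.chart_mem_maximalAtlas c
  have hez : e z ∈ e.target := e.map_source hz
  have hχz : χ z ∈ χ.target := χ.map_source hzχ
  have hcrit := (Pool.Agent.Y318.MN.crit_iff hg heA hz).1 hC
  have hu : ContDiffAt ℝ ∞ (fun w => g (e.symm w)) (e z) :=
    Pool.Agent.Y318.MN.chart_cd hg heA hez
  have hθ : ContDiffAt ℝ ∞ (e ∘ χ.symm) (χ z) := by
    rw [← contMDiffAt_iff_contDiffAt]
    have h1 : ContMDiffAt (𝓡 n) (𝓡 n) ∞ χ.symm (χ z) :=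
      (contMDiffOn_symm_of_mem_maximalAtlas hχ _ hχz).contMDiffAt (χ.open_target.mem_nhds hχz)
    have h2 : ContMDiffAt (𝓡 n) (𝓡 n) ∞ e (χ.symm (χ z)) := by
      rw [χ.left_inv hzχ]
      exact (contMDiffOn_of_mem_maximalAtlas heA _ hz).contMDiffAt (e.open_source.mem_nhds hz)
    exact h2.comp _ h1
  have hθ' : ContDiffAt ℝ ∞ (χ ∘ e.symm) (e z) := by
    rw [← contMDiffAt_iff_contDiffAt]
    have h1 : ContMDiffAt (𝓡 n) (𝓡 n) ∞ e.symm (e z) :=
      (contMDiffOn_symm_of_mem_maximalAtlas heA _ hez).contMDiffAt (e.open_target.mem_nhds hez)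
    have h2 : ContMDiffAt (𝓡 n) (𝓡 n) ∞ χ (e.symm (e z)) := by
      rw [e.left_inv hz]
      exact (contMDiffOn_of_mem_maximalAtlas hχ _ hzχ).contMDiffAt (χ.open_source.mem_nhds hzχ)
    exact h2.comp _ h1
  have hp : (e ∘ χ.symm) (χ z) = e z := by simp [χ.left_inv hzχ]
  have n1 : ∀ᶠ w in 𝓝 (χ z), w ∈ χ.target ∧ χ.symm w ∈ e.source := by
    have k1 : ∀ᶠ w in 𝓝 (χ z), w ∈ χ.target := χ.open_target.mem_nhds hχz
    have k2 : ∀ᶠ w in 𝓝 (χ z), χ.symm w ∈ e.source :=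
      (χ.continuousAt_symm hχz).eventually (by rw [χ.left_inv hzχ]; exact e.open_source.mem_nhds hz)
    exact k1.and k2
  have n2 : ∀ᶠ w in 𝓝 (e z), w ∈ e.target ∧ e.symm w ∈ χ.source := by
    have k1 : ∀ᶠ w in 𝓝 (e z), w ∈ e.target := e.open_target.mem_nhds hez
    have k2 : ∀ᶠ w in 𝓝 (e z), e.symm w ∈ χ.source :=
      (e.continuousAt_symm hez).eventually (by rw [e.left_inv hz]; exact χ.open_source.mem_nhds hzχ)
    exact k1.and k2
  refine hess_comp (u := fun w => g (e.symm w)) (θ := e ∘ χ.symm) (θ' := χ ∘ e.symm)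
    (p := χ z) ?_ hθ ?_ ?_ ?_ ?_ ?_ ?_ v ?_
  · rw [hp]; exact hu
  · rw [hp]; exact hcrit
  · rw [hp]; exact hinj
  · rw [hp]; exact hθ'
  · filter_upwards [n1] with w hw
    show χ (e.symm (e (χ.symm w))) = w
    rw [e.left_inv hw.2, χ.right_inv hw.1]
  · rw [hp]
    filter_upwards [n2] with w hw
    show e (χ.symm (χ (e.symm w))) = w
    rw [χ.left_inv hw.2, e.right_inv hw.1]
  · rw [hp]
    show χ (e.symm (e z)) = χ z
    rw [e.left_inv hz]
  · have h3 : ((fun w => g (e.symm w)) ∘ (e ∘ χ.symm)) =ᶠ[𝓝 (χ z)] fun w => g (χ.symm w) := by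
      filter_upwards [n1] with w hw
      show g (e.symm (e (χ.symm w))) = g (χ.symm w)
      rw [e.left_inv hw.2]
    rw [h3.fderiv.fderiv_eq]
    exact hv

theorem hess_inj {ι : Type*} [Fintype ι] {u : EuclideanSpace ℝ (Fin n) → ℝ}
    {w : ι → EuclideanSpace ℝ (Fin n) → ℝ} {T : Set (EuclideanSpace ℝ (Fin n))} (hT : IsOpen T)
    (hu : ContDiffOn ℝ ∞ u T) (hw : ∀ j, ContDiffOn ℝ ∞ (w j) T) (a : ι → ℝ)
    {v : EuclideanSpace ℝ (Fin n)} (hv : v ∈ T) (hdet : (FF' u w a v).det ≠ 0)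
    (y : EuclideanSpace ℝ (Fin n))
    (hy : fderiv ℝ (fderiv ℝ (fun v => u v + ∑ j, a j * w j v)) v y = 0) : y = 0 := by
  have hcd : ContDiffOn ℝ ∞ (fun v => u v + ∑ j, a j * w j v) T :=
    hu.add (ContDiffOn.sum fun j _ => contDiffOn_const.mul (hw j))
  have e1 : gr (fun v => u v + ∑ j, a j * w j v) =ᶠ[𝓝 v] FF u w a := by
    filter_upwards [hT.mem_nhds hv] with x hx
    have k : ∀ {g : EuclideanSpace ℝ (Fin n) → ℝ}, ContDiffOn ℝ ∞ g T →
        HasFDerivAt g (fderiv ℝ g x) x := fun hg =>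
      ((hg.contDiffAt (hT.mem_nhds hx)).differentiableAt (by simp)).hasFDerivAt
    have h2 : HasFDerivAt (fun v => u v + ∑ j, a j * w j v)
        (fderiv ℝ u x + ∑ j, a j • fderiv ℝ (w j) x) x :=
      (k hu).add (HasFDerivAt.fun_sum fun j _ => (k (hw j)).const_mul (a j))
    refine ext_inner_right ℝ fun z => ?_
    rw [inner_gr, h2.fderiv]
    unfold FF
    rw [inner_add_left, sum_inner, inner_gr, _root_.add_apply, _root_.sum_apply]
    congr 1
    refine Finset.sum_congr rfl fun j _ => ?_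
    rw [real_inner_smul_left, inner_gr]
    rfl
  have d1 : HasFDerivAt (gr (fun v => u v + ∑ j, a j * w j v)) (FF' u w a v) v :=
    (FF_hasFDerivAt hT hu hw a hv).congr_of_eventuallyEq e1
  have d2 : HasFDerivAt (fderiv ℝ (fun v => u v + ∑ j, a j * w j v))
      (fderiv ℝ (fderiv ℝ (fun v => u v + ∑ j, a j * w j v)) v) v :=
    (((hcd.contDiffAt (hT.mem_nhds hv)).fderiv_right (m := ∞) (by simp)).differentiableAt
      (by simp)).hasFDerivAt
  have e2 : FF' u w a v y = 0 := by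
    refine ext_inner_left ℝ fun z => ?_
    rw [inner_zero_right]
    have h4 : HasFDerivAt (fun x => fderiv ℝ (fun v => u v + ∑ j, a j * w j v) x z)
        ((innerSL ℝ z).comp (FF' u w a v)) v := by
      refine ((innerSL ℝ z).hasFDerivAt.comp v d1).congr_of_eventuallyEq
        (Eventually.of_forall fun x => ?_)
      show fderiv ℝ (fun v => u v + ∑ j, a j * w j v) x z =
        inner ℝ z (gr (fun v => u v + ∑ j, a j * w j v) x)
      rw [real_inner_comm, inner_gr]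
    have h5 : HasFDerivAt (fun x => fderiv ℝ (fun v => u v + ∑ j, a j * w j v) x z)
        ((ContinuousLinearMap.apply ℝ ℝ z).comp
          (fderiv ℝ (fderiv ℝ (fun v => u v + ∑ j, a j * w j v)) v)) v :=
      (ContinuousLinearMap.apply ℝ ℝ z).hasFDerivAt.comp v d2
    have h6 := congrArg (fun L : EuclideanSpace ℝ (Fin n) →L[ℝ] ℝ => L y) (h4.unique h5)
    have h7 : inner ℝ z (FF' u w a v y) =
        fderiv ℝ (fderiv ℝ (fun v => u v + ∑ j, a j * w j v)) v y z := h6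
    rw [h7, hy]
    rfl
  let e := (FF' u w a v).toContinuousLinearEquivOfDetNeZero hdet
  have e3 : e y = 0 := e2
  exact (map_eq_zero_iff e e.injective).1 e3

variable (n N) in
/-- **Density of Morse functions.** -/
theorem exists_morse [T2Space N] [CompactSpace N] :
    ∃ (ι : Type) (_ : Fintype ι) (f : ι → N → ℝ), (∀ j, ContMDiff (𝓡 n) 𝓘(ℝ, ℝ) ∞ (f j)) ∧
      ∀ h : N → ℝ, ContMDiff (𝓡 n) 𝓘(ℝ, ℝ) ∞ h → ∃ D : Set (ι → ℝ), IsOpen D ∧ Dense D ∧
        ∀ a ∈ D, ∀ z, Crit n (fun x => h x + ∑ j, a j * f j x) z →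
          Nondeg n (fun x => h x + ∑ j, a j * f j x) z := by
  classical
  have hloc : ∀ c : N, ∃ (b : SmoothBumpFunction (𝓡 n) c) (K : Set N), IsCompact K ∧ K ∈ 𝓝 c ∧
      K ⊆ interior {y | b y = 1} ∩ (chartAt (EuclideanSpace ℝ (Fin n)) c).source := by
    intro c
    obtain ⟨b⟩ : Nonempty (SmoothBumpFunction (𝓡 n) c) := inferInstance
    have h1 : interior {y | b y = 1} ∩ (chartAt (EuclideanSpace ℝ (Fin n)) c).source ∈ 𝓝 c := by
      refine inter_mem ?_ ((chartAt (EuclideanSpace ℝ (Fin n)) c).open_source.mem_nhds (mem_chart_source (EuclideanSpace ℝ (Fin n)) c))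
      exact interior_mem_nhds.2 b.eventuallyEq_one
    obtain ⟨K, hK1, hK2, hK3⟩ := local_compact_nhds h1
    exact ⟨b, K, hK3, hK1, hK2⟩
  choose b K hKc hKn hKs using hloc
  obtain ⟨t, ht⟩ := CompactSpace.elim_nhds_subcover K hKn
  let ctr : Fin t.card → N := fun l => (t.equivFin.symm l : N)
  let f : Fin t.card × Fin n → N → ℝ := fun j y =>
    b (ctr j.1) y * (extChartAt (𝓡 n) (ctr j.1) y) j.2
  have hf : ∀ j, ContMDiff (𝓡 n) 𝓘(ℝ, ℝ) ∞ (f j) := by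
    intro j
    have h1 : ContMDiffOn (𝓡 n) 𝓘(ℝ, ℝ) ∞ (fun y => (extChartAt (𝓡 n) (ctr j.1) y) j.2)
        (chartAt (EuclideanSpace ℝ (Fin n)) (ctr j.1)).source :=
      (EuclideanSpace.proj j.2 : (EuclideanSpace ℝ (Fin n)) →L[ℝ] ℝ).contMDiff.comp_contMDiffOn contMDiffOn_extChartAt
    exact (b (ctr j.1)).contMDiff_smul h1
  refine ⟨Fin t.card × Fin n, inferInstance, f, hf, fun h hh => ?_⟩
  let u : Fin t.card → (EuclideanSpace ℝ (Fin n)) → ℝ := fun l v => h ((extChartAt (𝓡 n) (ctr l)).symm v)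
  let w : Fin t.card → Fin t.card × Fin n → (EuclideanSpace ℝ (Fin n)) → ℝ := fun l j v =>
    f j ((extChartAt (𝓡 n) (ctr l)).symm v)
  let K' : Fin t.card → Set (EuclideanSpace ℝ (Fin n)) := fun l => extChartAt (𝓡 n) (ctr l) '' K (ctr l)
  have hT : ∀ l, IsOpen (extChartAt (𝓡 n) (ctr l)).target := fun l => isOpen_extChartAt_target _
  have hu : ∀ l, ContDiffOn ℝ ∞ (u l) (extChartAt (𝓡 n) (ctr l)).target := fun l => cd_loc hh _
  have hw : ∀ l j, ContDiffOn ℝ ∞ (w l j) (extChartAt (𝓡 n) (ctr l)).target :=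
    fun l j => cd_loc (hf j) _
  have hKsrc : ∀ c : N, K c ⊆ (extChartAt (𝓡 n) c).source := fun c y hy => by
    rw [extChartAt_source]
    exact (hKs c hy).2
  have hK'T : ∀ l, K' l ⊆ (extChartAt (𝓡 n) (ctr l)).target := by
    rintro l _ ⟨y, hy, rfl⟩
    exact (extChartAt (𝓡 n) (ctr l)).map_source (hKsrc _ hy)
  have hK'c : ∀ l, IsCompact (K' l) := fun l =>
    (hKc _).image_of_continuousOn ((continuousOn_extChartAt _).mono (hKsrc _))
  have he : ∀ l i, ∀ v ∈ K' l, w l (l, i) =ᶠ[𝓝 v] fun v => v i := by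
    rintro l i _ ⟨y, hy, rfl⟩
    have h1 : ContinuousAt (extChartAt (𝓡 n) (ctr l)).symm (extChartAt (𝓡 n) (ctr l) y) :=
      continuousAt_extChartAt_symm'' (hK'T l ⟨y, hy, rfl⟩)
    have h2 : (extChartAt (𝓡 n) (ctr l)).symm (extChartAt (𝓡 n) (ctr l) y) = y :=
      (extChartAt (𝓡 n) (ctr l)).left_inv (hKsrc _ hy)
    have h3 : interior {y | b (ctr l) y = 1} ∈
        𝓝 ((extChartAt (𝓡 n) (ctr l)).symm (extChartAt (𝓡 n) (ctr l) y)) := by
      rw [h2]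
      exact isOpen_interior.mem_nhds (hKs _ hy).1
    filter_upwards [h1 h3, (hT l).mem_nhds (hK'T l ⟨y, hy, rfl⟩)] with v hv1 hv2
    have h4' : (extChartAt (𝓡 n) (ctr l)).symm v ∈ {y | b (ctr l) y = 1} := interior_subset hv1
    have h4 : b (ctr l) ((extChartAt (𝓡 n) (ctr l)).symm v) = 1 := h4'
    show b (ctr l) ((extChartAt (𝓡 n) (ctr l)).symm v) *
      (extChartAt (𝓡 n) (ctr l) ((extChartAt (𝓡 n) (ctr l)).symm v)) i = v i
    rw [h4, one_mul, (extChartAt (𝓡 n) (ctr l)).right_inv hv2]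
  have ho : ∀ l, IsOpen (Good (u l) (w l) (K' l)) := fun l =>
    good_open (hT l) (hu l) (hw l) (hK'c l) (hK'T l)
  refine ⟨⋂ l, Good (u l) (w l) (K' l), isOpen_iInter_of_finite ho,
    dense_iInter_of_isOpen ho fun l => good_dense (hT l) (hu l) (hw l) (hK'T l)
      (fun i => (l, i)) (he l), fun a ha => ?_⟩
  intro z hz
  have hx2 : z ∈ ⋃ c ∈ t, K c := by rw [ht]; trivial
  obtain ⟨c, hc, hxc⟩ := mem_iUnion₂.1 hx2
  obtain ⟨l, rfl⟩ : ∃ l, ctr l = c := ⟨t.equivFin ⟨c, hc⟩, by simp [ctr]⟩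
  have h1 := FF_of_crit hh hf a (ctr l) (hKs _ hxc).2 hz
  have h2 : (FF' (u l) (w l) a (extChartAt (𝓡 n) (ctr l) z)).det ≠ 0 := fun h =>
    mem_iInter.1 ha l _ ⟨z, hxc, rfl⟩ ⟨h1, h⟩
  exact nondeg_of_chart (smooth_comb hh hf a) (ctr l) (hKs _ hxc).2 hz
    (hess_inj (hT l) (hu l) (hw l) a (hK'T l ⟨z, hxc, rfl⟩) h2)

end Pool.Agent.U1.VF
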