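import Pool.Agent.U1.VF.Maps
import Pool.Agent.U1.VF.Morse2
import Pool.Agent.Y318.MN.Cyc
import Pool.Agent.Y504.CO.Plug

/-! Compositions of time `τ` maps of fields which do not decrease one function. -/

set_option autoImplicit false

open scoped Manifold ContDiff Topology Bundle
open Set Filter MeasureTheory

universe u

namespace Pool.Agent.U1.VF

open Pool.Agent.H718R2.G (DiffM strongTop)
open Pool.Agent.W564.SC (IsFam)
open Pool.Agent.TH80.CLX (fam_mem)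
open Pool.Agent.TH80.OMS Pool.Agent.Y504.CO Pool.Agent.Y318.MN

set_option linter.unusedSectionVars false

/-- `F` is a composition of time `τ` maps, `τ ≥ 0`, of the flows of fields `A h`, for the function `h` and
any operators `A` -/
inductive IsComp (n : ℕ) {N : Type u} [TopologicalSpace N]
    [ChartedSpace (EuclideanSpace ℝ (Fin n)) N] [IsManifold (𝓡 n) ∞ N] (h : N → ℝ) :
    (N → N) → Prop
  | refl : IsComp n h id
  | step (B : DissOp n N ⊤) (ψ : ℝ → N → N) (τ : ℝ) (g : N → N) : IsFlowOf ψ (B.A h) → 0 ≤ τ →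
      IsComp n h g → IsComp n h (ψ τ ∘ g)

variable {n : ℕ} {N : Type u} [TopologicalSpace N]
  [ChartedSpace (EuclideanSpace ℝ (Fin n)) N] [IsManifold (𝓡 n) ∞ N] [T2Space N] [CompactSpace N]

theorem comp_family {ι : Type} [Fintype ι] {h : N → ℝ} (hh : Smooth n h) {f : ι → N → ℝ}
    (hf : ∀ j, Smooth n (f j)) (r : ℕ∞) {F : N → N} (hF : IsComp n h F) :
    ∃ H : (ι → ℝ) → DiffM n N r, IsFam n N r H ∧ (∀ x, H 0 x = F x) ∧
      ∀ a x, h x + ∑ j, a j * f j x ≤ h (H a x) + ∑ j, a j * f j (H a x) := by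
  induction hF with
  | refl =>
    exact ⟨fun _ => Diffeomorph.refl (𝓡 n) N r, fun y => contMDiffAt_snd, fun x => rfl,
      fun a x => le_rfl⟩
  | step B ψ τ g hψ hτ hg ih =>
    obtain ⟨H₀, hfam₀, h0, hmon₀⟩ := ih
    have hsm : ∀ g : N → ℝ, Smooth n g → ContMDiff (𝓡 n) (𝓡 n).tangent ∞
        (fun x => (⟨x, B.A g x⟩ : TangentBundle (𝓡 n) N)) := fun g hg => B.smooth g hg
    obtain ⟨Φ, H₁, hΦ, hH₁, hfam₁⟩ := diffeo_family (hsm h hh) (fun j => hsm (f j) (hf j)) τ r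
    have hX0 : (fun x => B.A h x + ∑ j, (0 : ι → ℝ) j • B.A (f j) x) = B.A h := by
      funext x
      simp
    have hΦ0 : Φ 0 = ψ := by
      have h1 := hΦ 0
      rw [hX0] at h1
      exact flow_unique ((hsm h hh).of_le (m := 1) (by simp)) h1 hψ
    refine ⟨fun a => (H₀ a).trans (H₁ a), fun y => ?_, fun x => ?_, fun a x => ?_⟩
    · exact ContMDiffAt.comp ((0 : ι → ℝ), y) (hfam₁ (H₀ 0 y))
        (contMDiffAt_fst.prodMk (hfam₀ y))
    · show H₁ 0 (H₀ 0 x) = ψ τ (g x)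
      rw [hH₁, h0, hΦ0]
    · refine (hmon₀ a x).trans ?_
      show h (H₀ a x) + ∑ j, a j * f j (H₀ a x) ≤
        h (H₁ a (H₀ a x)) + ∑ j, a j * f j (H₁ a (H₀ a x))
      rw [hH₁]
      have h2 := monotone_along (smooth_comb hh hf a) (Y := fun x => B.A h x + ∑ j, a j • B.A (f j) x)
        (fun x => by
          rw [← op_comb B hh hf a x]
          exact B.nonneg _ (smooth_comb hh hf a) x) ((hΦ a).2 (H₀ a x)) hτ
      simp only [(hΦ a).1.zero] at h2
      exact h2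

theorem comp_axiomA [Nonempty N] {r : ℕ∞} (hr : 1 ≤ r) {h : N → ℝ} (hh : Smooth n h)
    (F : DiffM n N r) (hF : IsComp n h F) (U : Set (DiffM n N r))
    (hU : IsOpen[strongTop n N r] U) (hFU : F ∈ U) :
    ∃ G ∈ U, FiniteNoCycle G ∧ ∀ p ∈ Omega G, IsHyperbolicPer n G p := by
  obtain ⟨z₀⟩ := ‹Nonempty N›
  obtain ⟨ι, _, f, hf, hgen⟩ := exists_morse n N
  obtain ⟨D, -, hDd, hD⟩ := hgen h hh
  obtain ⟨H, hfam, h0, hmon⟩ := comp_family hh hf r hF
  have hH0 : H 0 = F := by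
    ext x
    exact h0 x
  obtain ⟨κ, hκ, hκ2⟩ := fam_mem r hr H hfam z₀ U hU (by rw [hH0]; exact hFU)
  obtain ⟨a, ha1, ha2⟩ := hDd.inter_open_nonempty (Metric.ball 0 κ) Metric.isOpen_ball
    ⟨0, Metric.mem_ball_self hκ⟩
  have hHa : H a ∈ U := hκ2 a (by simpa using ha1)
  obtain ⟨G, h1, -, h3, h4, h5, -, -⟩ := axiomA_approx hr (H a) (smooth_comb hh hf a) (hmon a)
    (fun z hz => hD a ha2 z (hz 0).1) U hU hHa
  exact ⟨G, h1, h5, fun p hp => Plug.hyp_charpoly hr G (h3 hp) (h4 p (h3 hp))⟩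

end Pool.Agent.U1.VF
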