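import Pool.Agent.U1.VF.Comp
import Pool.Agent.Y318.MN.Attr

/-! Attractors near compositions of time `τ` maps. -/

set_option autoImplicit false

open scoped Manifold ContDiff Topology Bundle
open Set Filter MeasureTheory

universe u

namespace Pool.Agent.U1.VF

open Pool.Agent.H718R2.G (DiffM strongTop)
open Pool.Agent.W564.SC (IsFam)
open Pool.Agent.TH80.CLX (fam_mem)
open Pool.Agent.Y318.MN (CritInv critInv_finite critInv_per critInv_map finitude)

set_option linter.unusedSectionVars false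

theorem orb_eq {X : Type u} {F : X → X} {x z : X} {p : ℕ} (hp : 1 ≤ p) (hx : F^[p] x = x)
    (hz : z ∈ range fun k : ℕ => F^[k] x) :
    (range fun k : ℕ => F^[k] z) = range fun k : ℕ => F^[k] x := by
  obtain ⟨k, rfl⟩ := hz
  apply Subset.antisymm
  · rintro _ ⟨l, rfl⟩
    exact ⟨l + k, by simp only [Function.iterate_add_apply]⟩
  · rintro _ ⟨l, rfl⟩
    refine ⟨l + (p * k - k), ?_⟩
    have h1 : k ≤ p * k := Nat.le_mul_of_pos_left k hp
    have h2 : F^[p * k] x = x := by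
      rw [Function.iterate_mul]
      exact Function.iterate_fixed hx k
    show F^[l + (p * k - k)] (F^[k] x) = F^[l] x
    rw [← Function.iterate_add_apply, Nat.add_assoc, Nat.sub_add_cancel h1,
      Function.iterate_add_apply, h2]

theorem orbits_partition {X : Type u} [TopologicalSpace X] [T1Space X] {F : X → X} {C : Set X}
    (hC : C.Finite) (hper : ∀ x ∈ C, ∃ k : ℕ, 1 ≤ k ∧ F^[k] x = x) (hinv : ∀ x ∈ C, F x ∈ C) :
    ∃ (m : ℕ) (M : Fin m → Set X), (∀ i, IsClosed (M i)) ∧ (∀ i, F '' M i = M i) ∧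
      (∀ i j, i ≠ j → Disjoint (M i) (M j)) ∧ (∀ i, M i ⊆ C) ∧
      (∀ i, ∃ x ∈ M i, M i ⊆ closure (range fun k : ℕ => F^[k] x)) ∧ C ⊆ ⋃ i, M i := by
  classical
  let O : X → Set X := fun x => range fun k : ℕ => F^[k] x
  have hOC : ∀ x ∈ C, O x ⊆ C := by
    rintro x hx _ ⟨k, rfl⟩
    show F^[k] x ∈ C
    induction k with
    | zero => exact hx
    | succ k ih => rw [Function.iterate_succ_apply']; exact hinv _ ih
  have hS : (O '' C).Finite := hC.image O
  have := hS.fintype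
  let e : Fin (Fintype.card (O '' C)) ≃ O '' C := (Fintype.equivFin _).symm
  refine ⟨_, fun i => (e i).1, fun i => ?_, fun i => ?_, fun i j hij => ?_, fun i => ?_,
    fun i => ?_, fun x hx => ?_⟩ <;> beta_reduce
  · obtain ⟨x, hx, hxe⟩ := (e i).2
    rw [← hxe]
    exact (hC.subset (hOC x hx)).isClosed
  · obtain ⟨x, hx, hxe⟩ := (e i).2
    rw [← hxe]
    obtain ⟨p, hp, hpx⟩ := hper x hx
    apply Subset.antisymm
    · rintro _ ⟨_, ⟨k, rfl⟩, rfl⟩
      exact ⟨k + 1, Function.iterate_succ_apply' F k x⟩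
    · rintro _ ⟨k, rfl⟩
      rcases k with _ | k
      · refine ⟨F^[p - 1] x, ⟨p - 1, rfl⟩, ?_⟩
        rw [← Function.iterate_succ_apply' F, Nat.succ_eq_add_one, Nat.sub_add_cancel hp]
        exact hpx
      · exact ⟨F^[k] x, ⟨k, rfl⟩, (Function.iterate_succ_apply' F k x).symm⟩
  · obtain ⟨x, hx, hxe⟩ := (e i).2
    obtain ⟨y, hy, hye⟩ := (e j).2
    rw [Set.disjoint_iff_inter_eq_empty, Set.eq_empty_iff_forall_notMem]
    rintro z ⟨hz1, hz2⟩
    apply hij
    apply e.injective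
    apply Subtype.ext
    rw [← hxe] at hz1 ⊢
    rw [← hye] at hz2 ⊢
    obtain ⟨p, hp, hpx⟩ := hper x hx
    obtain ⟨q, hq, hqy⟩ := hper y hy
    exact (orb_eq hp hpx hz1).symm.trans (orb_eq hq hqy hz2)
  · obtain ⟨x, hx, hxe⟩ := (e i).2
    rw [← hxe]
    exact hOC x hx
  · obtain ⟨x, hx, hxe⟩ := (e i).2
    refine ⟨x, ?_, ?_⟩
    · rw [← hxe]
      exact ⟨0, rfl⟩
    · rw [← hxe]
      exact subset_closure
  · refine mem_iUnion.2 ⟨e.symm ⟨O x, mem_image_of_mem _ hx⟩, ?_⟩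
    rw [e.apply_symm_apply]
    exact ⟨0, rfl⟩

variable {n : ℕ} {N : Type u} [TopologicalSpace N]
  [ChartedSpace (EuclideanSpace ℝ (Fin n)) N] [IsManifold (𝓡 n) ∞ N] [T2Space N] [CompactSpace N]

theorem comp_attr [Nonempty N] {r : ℕ∞} (hr : 1 ≤ r) {h : N → ℝ} (hh : Smooth n h)
    (F : DiffM n N r) (hF : IsComp n h F) (U : Set (DiffM n N r))
    (hU : IsOpen[strongTop n N r] U) (hFU : F ∈ U) :
    ∃ G ∈ U, (∃ S : Set N, S.Finite ∧ ∀ p, omegaLim G p ⊆ S) ∧
      ∀ (_ : MeasurableSpace N) (μ : Measure N), FiniteAttractors μ G := by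
  obtain ⟨z₀⟩ := ‹Nonempty N›
  obtain ⟨ι, _, f, hf, hgen⟩ := exists_morse n N
  obtain ⟨D, -, hDd, hD⟩ := hgen h hh
  obtain ⟨H, hfam, h0, hmon⟩ := comp_family hh hf r hF
  have hH0 : H 0 = F := by
    ext x
    exact h0 x
  obtain ⟨κ, hκ, hκ2⟩ := fam_mem r hr H hfam z₀ U hU (by rw [hH0]; exact hFU)
  obtain ⟨a, ha1, ha2⟩ := hDd.inter_open_nonempty (Metric.ball 0 κ) Metric.isOpen_ball
    ⟨0, Metric.mem_ball_self hκ⟩
  have hHa : H a ∈ U := hκ2 a (by simpa using ha1)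
  have hnd : ∀ z ∈ CritInv n (H a) (fun x => h x + ∑ j, a j * f j x),
      Pool.Agent.Y318.MN.Nondeg n (fun x => h x + ∑ j, a j * f j x) z :=
    fun z hz => hD a ha2 z (hz 0).1
  have hfin := critInv_finite (F := H a) (smooth_comb hh hf a) hnd
  obtain ⟨m, M, hcl, hinv, hdis, hMC, htr, hcov⟩ := orbits_partition (F := H a) hfin
    (fun x hx => critInv_per hfin hx) (fun x hx => critInv_map hx)
  obtain ⟨G, hGU, h1, h2⟩ := finitude hr (H a) (smooth_comb hh hf a) (hmon a) M hcl hinv hdis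
    (fun i x hx => (hMC i hx 0).1) htr hcov U hU hHa
  exact ⟨G, hGU, ⟨_, hfin, fun p => by
    obtain ⟨i, hi⟩ := h1 p
    exact Subset.trans hi (hMC i)⟩, fun _ μ => h2 _ μ⟩

end Pool.Agent.U1.VF
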