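import Mathlib

/-! Flows, limit sets and attractors. -/

set_option autoImplicit false

open scoped Manifold ContDiff Topology Bundle
open Set Filter MeasureTheory

universe u

namespace Pool.Agent.U1.VF

section flows

variable {N : Type u} [TopologicalSpace N]

/-- A continuous flow. -/
structure FlowOn (N : Type u) [TopologicalSpace N] (φ : ℝ → N → N) : Prop where
  cont : Continuous fun q : ℝ × N => φ q.1 q.2
  zero : ∀ y, φ 0 y = y
  add : ∀ (s t : ℝ) (y : N), φ (s + t) y = φ s (φ t y)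

/-- The `ω`-limit set of the point `p` under the flow. -/
def omegaF (φ : ℝ → N → N) (p : N) : Set N :=
  {q | ∀ U ∈ 𝓝 q, ∀ T : ℝ, ∃ t : ℝ, T ≤ t ∧ φ t p ∈ U}

/-- `Λ` is an attractor of the flow: it is invariant, it contains a point whose forward orbit is
dense in `Λ`, and its basin has positive measure. -/
def IsAttractorF [MeasurableSpace N] (μ : Measure N) (φ : ℝ → N → N) (Λ : Set N) : Prop :=
  (∀ t, φ t '' Λ = Λ) ∧ (∃ x ∈ Λ, Λ ⊆ closure {y | ∃ t : ℝ, 0 ≤ t ∧ y = φ t x}) ∧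
    0 < μ {p | omegaF φ p ⊆ Λ}

/-- The flow has finitely many attractors covering the space up to a null set. -/
def FiniteAttractorsF [MeasurableSpace N] (μ : Measure N) (φ : ℝ → N → N) : Prop :=
  ∃ (m : ℕ) (Λ : Fin m → Set N), (∀ i, IsAttractorF μ φ (Λ i)) ∧
    μ {p | ∀ i, ¬ omegaF φ p ⊆ Λ i} = 0

/-- The `ω`-limit set of the point `p` under the map `f`. -/
def omegaLim (f : N → N) (p : N) : Set N :=
  {q | ∀ U ∈ 𝓝 q, ∀ m : ℕ, ∃ k : ℕ, m ≤ k ∧ f^[k] p ∈ U}

/-- `Λ` is an attractor of the map `f`: it is invariant, it contains a point whose forward orbit is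
dense in `Λ`, and its basin has positive measure. -/
def IsAttractor [MeasurableSpace N] (μ : Measure N) (f : N → N) (Λ : Set N) : Prop :=
  f '' Λ = Λ ∧ (∃ x ∈ Λ, Λ ⊆ closure (range fun k : ℕ => f^[k] x)) ∧
    0 < μ {p | omegaLim f p ⊆ Λ}

/-- The map has finitely many attractors covering the space up to a null set. -/
def FiniteAttractors [MeasurableSpace N] (μ : Measure N) (f : N → N) : Prop :=
  ∃ (m : ℕ) (Λ : Fin m → Set N), (∀ i, IsAttractor μ f (Λ i)) ∧
    μ {p | ∀ i, ¬ omegaLim f p ⊆ Λ i} = 0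

theorem mem_omegaF_iff {f : ℝ → N → N} {p y : N} :
    y ∈ omegaF f p ↔ ∃ u : Ultrafilter ℝ, (u : Filter ℝ) ≤ atTop ∧
      Tendsto (fun t => f t p) u (𝓝 y) := by
  have h1 : y ∈ omegaF f p ↔ MapClusterPt y atTop (fun t : ℝ => f t p) := by
    rw [mapClusterPt_iff_frequently]
    constructor
    · intro h2 W hW
      rw [frequently_atTop]
      exact fun a => h2 W hW a
    · intro h2 W hW a
      exact frequently_atTop.1 (h2 W hW) a
  rw [h1, mapClusterPt_iff_ultrafilter]

end flows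

section fields

/-- vector fields -/
abbrev Field (n : ℕ) (N : Type u) [TopologicalSpace N]
    [ChartedSpace (EuclideanSpace ℝ (Fin n)) N] : Type u :=
  (x : N) → TangentSpace (𝓡 n) x

/-- `h` is smooth -/
def Smooth (n : ℕ) {N : Type u} [TopologicalSpace N]
    [ChartedSpace (EuclideanSpace ℝ (Fin n)) N] (h : N → ℝ) : Prop :=
  ContMDiff (𝓡 n) 𝓘(ℝ, ℝ) ∞ h

/-- the vector field `X` is of class `C^r` -/
def IsC {n : ℕ} {N : Type u} [TopologicalSpace N]
    [ChartedSpace (EuclideanSpace ℝ (Fin n)) N] [IsManifold (𝓡 n) ∞ N] (r : ℕ∞)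
    (X : Field n N) : Prop :=
  ContMDiff (𝓡 n) (𝓡 n).tangent r (fun x => (⟨x, X x⟩ : TangentBundle (𝓡 n) N))

/-- the differential of `h` at `x` -/
noncomputable def dL (n : ℕ) {N : Type u} [TopologicalSpace N]
    [ChartedSpace (EuclideanSpace ℝ (Fin n)) N] (h : N → ℝ) (x : N) :
    TangentSpace (𝓡 n) x →L[ℝ] ℝ :=
  mfderiv (𝓡 n) 𝓘(ℝ, ℝ) h x

/-- `φ` is the flow of the vector field `X` -/
def IsFlowOf {n : ℕ} {N : Type u} [TopologicalSpace N]
    [ChartedSpace (EuclideanSpace ℝ (Fin n)) N] (φ : ℝ → N → N) (X : Field n N) : Prop :=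
  FlowOn N φ ∧ ∀ x, IsMIntegralCurve (fun t => φ t x) X

end fields

end Pool.Agent.U1.VF
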