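import Mathlib

/-! Gradient-like vector fields. -/

set_option autoImplicit false

open scoped Manifold ContDiff Topology Bundle
open Set

universe u

namespace Pool.Agent.U1.VF

variable {n : ℕ} {N : Type u} [TopologicalSpace N]
  [ChartedSpace (EuclideanSpace ℝ (Fin n)) N] [IsManifold (𝓡 n) ∞ N]

set_option linter.unusedSectionVars false


/-- the derivative of `h` at `x` in the direction `v` -/
noncomputable def dh (n : ℕ) {N : Type u} [TopologicalSpace N]
    [ChartedSpace (EuclideanSpace ℝ (Fin n)) N] (h : N → ℝ) (x : N)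
    (v : TangentSpace (𝓡 n) x) : ℝ :=
  mfderiv (𝓡 n) 𝓘(ℝ, ℝ) h x v

/-- `x` is a critical point of `h` -/
def Crit (n : ℕ) {N : Type u} [TopologicalSpace N]
    [ChartedSpace (EuclideanSpace ℝ (Fin n)) N] (h : N → ℝ) (x : N) : Prop :=
  mfderiv (𝓡 n) 𝓘(ℝ, ℝ) h x = 0

/-- the local representative of the gradient -/
noncomputable def wloc (n : ℕ) {N : Type u} [TopologicalSpace N]
    [ChartedSpace (EuclideanSpace ℝ (Fin n)) N] (h : N → ℝ) (x₀ : N) (y : N) :
    EuclideanSpace ℝ (Fin n) :=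
  (InnerProductSpace.toDual ℝ (EuclideanSpace ℝ (Fin n))).symm
    (fderiv ℝ (fun v => h ((extChartAt (𝓡 n) x₀).symm v)) (extChartAt (𝓡 n) x₀ y))

theorem cd_loc {h : N → ℝ} (hh : ContMDiff (𝓡 n) 𝓘(ℝ, ℝ) ∞ h) (x₀ : N) :
    ContDiffOn ℝ ∞ (fun v => h ((extChartAt (𝓡 n) x₀).symm v)) (extChartAt (𝓡 n) x₀).target := by
  rw [← contMDiffOn_iff_contDiffOn]
  exact hh.comp_contMDiffOn (contMDiffOn_extChartAt_symm x₀)

theorem wloc_smooth {h : N → ℝ} (hh : ContMDiff (𝓡 n) 𝓘(ℝ, ℝ) ∞ h) (x₀ : N) :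
    ContMDiffOn (𝓡 n) 𝓘(ℝ, (EuclideanSpace ℝ (Fin n))) ∞ (wloc n h x₀) (chartAt (EuclideanSpace ℝ (Fin n)) x₀).source := by
  have h1 : ContDiffOn ℝ ∞ (fun v => (InnerProductSpace.toDual ℝ (EuclideanSpace ℝ (Fin n))).symm
      (fderiv ℝ (fun v => h ((extChartAt (𝓡 n) x₀).symm v)) v))
      (extChartAt (𝓡 n) x₀).target := by
    have h2 := (cd_loc hh x₀).fderiv_of_isOpen (m := ∞) (isOpen_extChartAt_target x₀)
      (by simp)
    exact (InnerProductSpace.toDual ℝ (EuclideanSpace ℝ (Fin n))).symm.toContinuousLinearEquiv.contDiff.comp_contDiffOn h2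
  have h3 := (contMDiffOn_iff_contDiffOn.2 h1).comp (contMDiffOn_extChartAt (I := 𝓡 n) (x := x₀))
    (fun y hy => (extChartAt (𝓡 n) x₀).map_source (by rwa [extChartAt_source]))
  exact h3

theorem dh_loc {h : N → ℝ} (hh : ContMDiff (𝓡 n) 𝓘(ℝ, ℝ) ∞ h) (x₀ : N) {y : N}
    (hy : y ∈ (chartAt (EuclideanSpace ℝ (Fin n)) x₀).source) (v : (EuclideanSpace ℝ (Fin n))) :
    dh n h y ((trivializationAt (EuclideanSpace ℝ (Fin n)) (TangentSpace (𝓡 n)) x₀).symmL ℝ y v) =
    fderiv ℝ (fun v => h ((extChartAt (𝓡 n) x₀).symm v)) (extChartAt (𝓡 n) x₀ y) v := by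
  have hy' : y ∈ (extChartAt (𝓡 n) x₀).source := by rwa [extChartAt_source]
  unfold dh
  rw [TangentBundle.symmL_trivializationAt hy]
  obtain ⟨z, hz, rfl⟩ : ∃ z ∈ (extChartAt (𝓡 n) x₀).target, (extChartAt (𝓡 n) x₀).symm z = y :=
    ⟨_, (extChartAt (𝓡 n) x₀).map_source hy', (extChartAt (𝓡 n) x₀).left_inv hy'⟩
  rw [(extChartAt (𝓡 n) x₀).right_inv hz]
  have hr : range (𝓡 n) = univ := ModelWithCorners.range_eq_univ _
  rw [hr, mfderivWithin_univ, ← mfderiv_eq_fderiv]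
  have hs : MDifferentiableAt 𝓘(ℝ, (EuclideanSpace ℝ (Fin n))) (𝓡 n) (extChartAt (𝓡 n) x₀).symm z := by
    have h1 : ContMDiffAt 𝓘(ℝ, (EuclideanSpace ℝ (Fin n))) (𝓡 n) ∞ (extChartAt (𝓡 n) x₀).symm z :=
      (contMDiffOn_extChartAt_symm x₀).contMDiffAt
        ((isOpen_extChartAt_target x₀).mem_nhds hz)
    exact h1.mdifferentiableAt (by simp)
  have h2 := mfderiv_comp (I := 𝓘(ℝ, (EuclideanSpace ℝ (Fin n)))) (I' := 𝓡 n) (I'' := 𝓘(ℝ, ℝ)) z
    (hh.contMDiffAt.mdifferentiableAt (by simp)) hs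
  have h3 : mfderiv 𝓘(ℝ, (EuclideanSpace ℝ (Fin n))) 𝓘(ℝ, ℝ) (fun v => h ((extChartAt (𝓡 n) x₀).symm v)) z =
      mfderiv 𝓘(ℝ, (EuclideanSpace ℝ (Fin n))) 𝓘(ℝ, ℝ) (h ∘ (extChartAt (𝓡 n) x₀).symm) z := rfl
  rw [h3, h2]
  rfl

/-- **Gradient-like fields.** -/
theorem exists_grad [T2Space N] [SigmaCompactSpace N] {h : N → ℝ}
    (hh : ContMDiff (𝓡 n) 𝓘(ℝ, ℝ) ∞ h) :
    ∃ G : (x : N) → TangentSpace (𝓡 n) x,
      ContMDiff (𝓡 n) (𝓡 n).tangent ∞ (fun x => (⟨x, G x⟩ : TangentBundle (𝓡 n) N)) ∧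
      ∀ x, (Crit n h x → G x = 0) ∧ (¬ Crit n h x → 0 < dh n h x (G x)) := by
  have := exists_contMDiffSection_forall_mem_convex_of_local (n := (⊤ : ℕ∞)) (𝓡 n)
    (F_fiber := (EuclideanSpace ℝ (Fin n))) (TangentSpace (𝓡 n) : N → Type _)
    (fun x => {v | (Crit n h x → v = 0) ∧ (¬ Crit n h x → 0 < dh n h x v)}) ?_ ?_
  · obtain ⟨s, hs⟩ := this
    exact ⟨s, s.contMDiff, hs⟩
  · intro x
    by_cases h0 : Crit n h x
    · intro v hv w hw a b ha hb hab
      refine ⟨fun _ => ?_, fun h1 => absurd h0 h1⟩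
      rw [hv.1 h0, hw.1 h0, smul_zero, smul_zero, add_zero]
    · intro v hv w hw a b ha hb hab
      refine ⟨fun h1 => absurd h1 h0, fun _ => ?_⟩
      have h1 := hv.2 h0
      have h2 := hw.2 h0
      have e1 : dh n h x (a • v + b • w) = a * dh n h x v + b * dh n h x w := by
        unfold dh
        rw [map_add, map_smul, map_smul]
        rfl
      rw [e1]
      rcases ha.eq_or_lt with rfl | ha'
      · have hb' : b = 1 := by linarith
        subst hb'
        linarith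
      · exact add_pos_of_pos_of_nonneg (mul_pos ha' h1) (mul_nonneg hb h2.le)
  · intro x₀
    have hb : (trivializationAt (EuclideanSpace ℝ (Fin n)) (TangentSpace (𝓡 n)) x₀).baseSet = (chartAt (EuclideanSpace ℝ (Fin n)) x₀).source :=
      TangentBundle.trivializationAt_baseSet x₀
    refine ⟨(chartAt (EuclideanSpace ℝ (Fin n)) x₀).source, (chartAt (EuclideanSpace ℝ (Fin n)) x₀).open_source.mem_nhds (mem_chart_source (EuclideanSpace ℝ (Fin n)) x₀),
      fun y => (trivializationAt (EuclideanSpace ℝ (Fin n)) (TangentSpace (𝓡 n)) x₀).symmL ℝ y (wloc n h x₀ y), ?_, ?_⟩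
    · have h1 := (trivializationAt (EuclideanSpace ℝ (Fin n)) (TangentSpace (𝓡 n)) x₀).contMDiffOn_section_baseSet_iff
        (IB := 𝓡 n) (n := ∞)
        (s := fun y => (trivializationAt (EuclideanSpace ℝ (Fin n)) (TangentSpace (𝓡 n)) x₀).symmL ℝ y (wloc n h x₀ y))
      rw [hb] at h1
      refine h1.2 ((wloc_smooth hh x₀).congr fun y hy => ?_)
      have h2 := (trivializationAt (EuclideanSpace ℝ (Fin n)) (TangentSpace (𝓡 n)) x₀).apply_mk_symm
        (b := y) (by rw [hb]; exact hy) (wloc n h x₀ y)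
      rw [Bundle.Trivialization.symmL_apply _ (by rw [hb]; exact hy)]
      exact congrArg Prod.snd h2
    · intro y hy
      have h1 := dh_loc hh x₀ hy
      have h2 : ∀ v : (EuclideanSpace ℝ (Fin n)), fderiv ℝ (fun v => h ((extChartAt (𝓡 n) x₀).symm v))
          (extChartAt (𝓡 n) x₀ y) v = inner ℝ (wloc n h x₀ y) v := by
        intro v
        unfold wloc
        rw [InnerProductSpace.toDual_symm_apply]
      have h3 : dh n h y
          ((trivializationAt (EuclideanSpace ℝ (Fin n)) (TangentSpace (𝓡 n)) x₀).symmL ℝ y (wloc n h x₀ y)) =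
          ‖wloc n h x₀ y‖ ^ 2 := by
        rw [h1, h2, real_inner_self_eq_norm_sq]
      refine ⟨fun h0 => ?_, fun h0 => ?_⟩
      · have h4 : ‖wloc n h x₀ y‖ ^ 2 = 0 := by
          rw [← h3]
          unfold dh
          rw [h0]
          rfl
        have h5 : wloc n h x₀ y = 0 := by
          have := pow_eq_zero_iff (two_ne_zero) |>.1 h4
          exact norm_eq_zero.1 this
        show (trivializationAt (EuclideanSpace ℝ (Fin n)) (TangentSpace (𝓡 n)) x₀).symmL ℝ y (wloc n h x₀ y) = 0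
        rw [h5, map_zero]
      · rw [h3]
        have h5 : wloc n h x₀ y ≠ 0 := by
          intro h5
          apply h0
          show mfderiv (𝓡 n) 𝓘(ℝ, ℝ) h y = 0
          ext v
          have hbs : y ∈ (trivializationAt (EuclideanSpace ℝ (Fin n)) (TangentSpace (𝓡 n)) x₀).baseSet := by
            rw [hb]; exact hy
          have h6 := (trivializationAt (EuclideanSpace ℝ (Fin n)) (TangentSpace (𝓡 n)) x₀).symmL_continuousLinearMapAt
            (R := ℝ) hbs v
          have h7 : dh n h y v = 0 := by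
            rw [← h6, h1, h2, h5, inner_zero_left]
          exact h7
        positivity

end Pool.Agent.U1.VF
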