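import Pool.Agent.U1.VF.Flow
import Pool.Agent.U1.VF.Grad
import Pool.Agent.U1.VF.Defs

/-! The dynamics of fields along which a function increases. -/

set_option autoImplicit false

open scoped Manifold ContDiff Topology Bundle
open Set Filter MeasureTheory

universe u

namespace Pool.Agent.U1.VF


variable {n : ℕ} {N : Type u} [TopologicalSpace N]
  [ChartedSpace (EuclideanSpace ℝ (Fin n)) N] [IsManifold (𝓡 n) ∞ N]

set_option linter.unusedSectionVars false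


theorem hda_aux {f : ℝ → ℝ} {L : ℝ →L[ℝ] ℝ} {t c : ℝ} (h : HasFDerivAt f L t) (hc : L 1 = c) :
    HasDerivAt f c t := hc ▸ h.hasDerivAt

/-- the chain rule along integral curves -/
theorem hasDerivAt_along {h : N → ℝ} (hh : ContMDiff (𝓡 n) 𝓘(ℝ, ℝ) ∞ h)
    {Y : (x : N) → TangentSpace (𝓡 n) x} {γ : ℝ → N} (hγ : IsMIntegralCurve γ Y) (t : ℝ) :
    HasDerivAt (fun s => h (γ s)) (dh n h (γ t) (Y (γ t))) t := by
  have h0 : MDifferentiableAt (𝓡 n) 𝓘(ℝ, ℝ) h (γ t) := hh.contMDiffAt.mdifferentiableAt (by simp)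
  have h1 := h0.hasMFDerivAt
  have h2 := h1.comp t (hγ t)
  have h3 := hasMFDerivAt_iff_hasFDerivAt.1 h2
  refine hda_aux h3 ?_
  show mfderiv (𝓡 n) 𝓘(ℝ, ℝ) h (γ t) ((1 : ℝ) • Y (γ t)) = _
  rw [one_smul]
  rfl

theorem monotone_along {h : N → ℝ} (hh : ContMDiff (𝓡 n) 𝓘(ℝ, ℝ) ∞ h)
    {Y : (x : N) → TangentSpace (𝓡 n) x} (hY : ∀ x, 0 ≤ dh n h x (Y x)) {γ : ℝ → N}
    (hγ : IsMIntegralCurve γ Y) : Monotone fun s => h (γ s) := by
  refine monotone_of_deriv_nonneg (fun t => (hasDerivAt_along hh hγ t).differentiableAt)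
    fun t => ?_
  rw [(hasDerivAt_along hh hγ t).deriv]
  exact hY _

theorem omega_shift {φ : ℝ → N → N} (hφ : FlowOn N φ) {p q : N} (hq : q ∈ omegaF φ p) (t : ℝ) :
    φ t q ∈ omegaF φ p := by
  intro U hU T
  have h1 : φ t ⁻¹' U ∈ 𝓝 q :=
    (hφ.cont.comp (continuous_const.prodMk continuous_id : Continuous fun y : N => (t, y))).continuousAt.preimage_mem_nhds hU
  obtain ⟨s, hs, hs2⟩ := hq _ h1 (T - t)
  refine ⟨t + s, by linarith, ?_⟩
  rw [hφ.add]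
  exact hs2

variable [CompactSpace N] [T2Space N]

theorem omega_const {h : N → ℝ} (hc : Continuous h) {φ : ℝ → N → N} {p : N}
    (hm : Monotone fun t => h (φ t p)) : ∃ c, ∀ q ∈ omegaF φ p, h q = c := by
  have hb : BddAbove (range fun t => h (φ t p)) := by
    obtain ⟨C, hC⟩ := (isCompact_range hc).bddAbove
    exact ⟨C, by rintro _ ⟨t, rfl⟩; exact hC ⟨_, rfl⟩⟩
  refine ⟨⨆ t, h (φ t p), fun q hq => ?_⟩
  have h1 := tendsto_atTop_ciSup hm hb
  obtain ⟨u, hu, hu2⟩ := mem_omegaF_iff.1 hq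
  have h2 : Tendsto (fun t => h (φ t p)) u (𝓝 (h q)) := (hc.tendsto q).comp hu2
  exact tendsto_nhds_unique h2 (h1.mono_left hu)

theorem omega_crit {h : N → ℝ} (hh : ContMDiff (𝓡 n) 𝓘(ℝ, ℝ) ∞ h)
    {Y : (x : N) → TangentSpace (𝓡 n) x} (hY : ∀ x, 0 ≤ dh n h x (Y x))
    (hY0 : ∀ x, dh n h x (Y x) = 0 → Crit n h x)
    {φ : ℝ → N → N} (hφ : FlowOn N φ) (hφY : ∀ x, IsMIntegralCurve (fun t => φ t x) Y)
    {p q : N} (hq : q ∈ omegaF φ p) : Crit n h q := by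
  obtain ⟨c, hc⟩ := omega_const hh.continuous (monotone_along hh hY (hφY p))
  have h1 : (fun t => h (φ t q)) = fun _ => c := by
    funext t
    exact hc _ (omega_shift hφ hq t)
  have h2 := hasDerivAt_along hh (hφY q) 0
  rw [h1] at h2
  have h3 := h2.unique (hasDerivAt_const (0 : ℝ) c)
  rw [hφ.zero] at h3
  exact hY0 _ h3

/-- an integral curve of `Z` among the points where `Y = Z` is an orbit of `Y` -/
theorem orbit_eq {Y Z : (x : N) → TangentSpace (𝓡 n) x}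
    (hY : ContMDiff (𝓡 n) (𝓡 n).tangent 1 (fun x => (⟨x, Y x⟩ : TangentBundle (𝓡 n) N)))
    {γ γ' : ℝ → N} (h0 : γ 0 = γ' 0) (hγ : IsMIntegralCurve γ Y) (hγ' : IsMIntegralCurve γ' Z)
    (he : ∀ t, Y (γ' t) = Z (γ' t)) : γ = γ' := by
  have h1 : IsMIntegralCurve γ' Y := by
    intro t
    rw [he t]
    exact hγ' t
  have : IsManifold (𝓡 n) 1 N := IsManifold.of_le (n := ∞) (by simp)
  exact isMIntegralCurve_Ioo_eq_of_contMDiff_boundaryless (t₀ := 0) hY hγ h1 h0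

theorem omega_nonempty (φ : ℝ → N → N) (p : N) : (omegaF φ p).Nonempty := by
  obtain ⟨u, hu⟩ := Ultrafilter.exists_le (atTop : Filter ℝ)
  obtain ⟨y, -, hy⟩ := isCompact_univ.ultrafilter_le_nhds (u.map fun t => φ t p) (by simp)
  exact ⟨y, mem_omegaF_iff.2 ⟨u, hu, hy⟩⟩

/-- the limit set lies in one of the pieces -/
theorem omega_one {φ : ℝ → N → N} (hφ : FlowOn N φ) {m : ℕ} (M : Fin m → Set N)
    (hcl : ∀ i, IsClosed (M i)) (hdis : ∀ i j, i ≠ j → Disjoint (M i) (M j)) {p : N}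
    (hω : omegaF φ p ⊆ ⋃ i, M i) : ∃ i, omegaF φ p ⊆ M i := by
  obtain ⟨q, hq⟩ := omega_nonempty φ p
  obtain ⟨i, hi⟩ := mem_iUnion.1 (hω hq)
  refine ⟨i, fun q' hq' => ?_⟩
  by_contra hni
  set B : Set N := ⋃ j : {j : Fin m // j ≠ i}, M j.1 with hB
  have hBc : IsClosed B := isClosed_iUnion_of_finite fun j => hcl j.1
  have hd : Disjoint (M i) B := disjoint_iUnion_right.2 fun j => hdis i j.1 (Ne.symm j.2)
  have hq'B : q' ∈ B := by
    obtain ⟨j, hj⟩ := mem_iUnion.1 (hω hq')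
    refine mem_iUnion.2 ⟨⟨j, fun h => hni (h ▸ hj)⟩, hj⟩
  obtain ⟨U, W, hU, hW, hMU, hBW, hUW⟩ := SeparatedNhds.of_isCompact_isCompact (hcl i).isCompact hBc.isCompact hd
  -- the orbit is eventually in `U ∪ W`
  have hev : ∀ᶠ t in (atTop : Filter ℝ), φ t p ∈ U ∪ W := by
    by_contra hne
    rw [not_eventually] at hne
    have : NeBot ((atTop : Filter ℝ) ⊓ 𝓟 {t | φ t p ∉ U ∪ W}) := by
      rw [← frequently_mem_iff_neBot]
      exact hne
    obtain ⟨u, hu⟩ := Ultrafilter.exists_le ((atTop : Filter ℝ) ⊓ 𝓟 {t | φ t p ∉ U ∪ W})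
    obtain ⟨y, -, hy⟩ := isCompact_univ.ultrafilter_le_nhds (u.map fun t => φ t p) (by simp)
    have hy1 : Tendsto (fun t => φ t p) u (𝓝 y) := hy
    have hy2 : y ∈ omegaF φ p := mem_omegaF_iff.2 ⟨u, hu.trans inf_le_left, hy1⟩
    have hy3 : y ∈ (U ∪ W)ᶜ := by
      refine (hU.union hW).isClosed_compl.mem_of_tendsto hy1 ?_
      have := hu.trans inf_le_right
      exact this (mem_principal_self _)
    apply hy3
    obtain ⟨j, hj⟩ := mem_iUnion.1 (hω hy2)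
    by_cases hji : j = i
    · subst hji; exact Or.inl (hMU hj)
    · exact Or.inr (hBW (mem_iUnion.2 ⟨⟨j, hji⟩, hj⟩))
  obtain ⟨T, hT⟩ := eventually_atTop.1 hev
  have hcon : IsPreconnected ((fun t => φ t p) '' Ici T) :=
    isPreconnected_Ici.image _ (hφ.cont.comp (continuous_id.prodMk continuous_const)).continuousOn
  have hsub : (fun t => φ t p) '' Ici T ⊆ U ∪ W := by
    rintro _ ⟨t, ht, rfl⟩
    exact hT t ht
  rcases hcon.subset_or_subset hU hW hUW hsub with h1 | h1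
  · obtain ⟨t, ht, ht2⟩ := hq' W (hW.mem_nhds (hBW hq'B)) T
    exact Set.disjoint_left.1 hUW (h1 ⟨t, ht, rfl⟩) ht2
  · obtain ⟨t, ht, ht2⟩ := hq U (hU.mem_nhds (hMU hi)) T
    exact Set.disjoint_left.1 hUW ht2 (h1 ⟨t, ht, rfl⟩)

/-- finitely many attractors -/
theorem finite_of_pieces {φ : ℝ → N → N} {m : ℕ} (M : Fin m → Set N)
    (hinv : ∀ i t, φ t '' M i = M i)
    (htr : ∀ i, ∃ x ∈ M i, M i ⊆ closure {y | ∃ t : ℝ, 0 ≤ t ∧ y = φ t x})
    (hω : ∀ p, ∃ i, omegaF φ p ⊆ M i) [MeasurableSpace N] (μ : Measure N) :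
    FiniteAttractorsF μ φ := by
  classical
  let J := {i : Fin m // 0 < μ {p | omegaF φ p ⊆ M i}}
  let e : Fin (Fintype.card J) ≃ J := (Fintype.equivFin J).symm
  refine ⟨Fintype.card J, fun i => M (e i).1, fun i => ⟨fun t => hinv _ t, htr _, (e i).2⟩, ?_⟩
  have h1 : μ (⋃ i : {i : Fin m // ¬ 0 < μ {p | omegaF φ p ⊆ M i}},
      {p | omegaF φ p ⊆ M i.1}) = 0 := by
    refine measure_iUnion_null fun i => ?_
    exact le_antisymm (not_lt.1 i.2) bot_le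
  refine measure_mono_null ?_ h1
  intro p hp
  obtain ⟨i, hi⟩ := hω p
  refine mem_iUnion.2 ⟨⟨i, fun hpos => ?_⟩, hi⟩
  have h2 : ¬ omegaF φ p ⊆ M (e (e.symm ⟨i, hpos⟩)).1 := hp (e.symm ⟨i, hpos⟩)
  rw [e.apply_symm_apply] at h2
  exact h2 hi

/-- **The dynamics of the perturbed field.** `Y` increases `h` off its critical points; on them
`Y = Z`. -/
theorem main_dyn {h : N → ℝ} (hh : ContMDiff (𝓡 n) 𝓘(ℝ, ℝ) ∞ h)
    {Y Z : (x : N) → TangentSpace (𝓡 n) x}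
    (hY1 : ContMDiff (𝓡 n) (𝓡 n).tangent 1 (fun x => (⟨x, Y x⟩ : TangentBundle (𝓡 n) N)))
    (hZ1 : ContMDiff (𝓡 n) (𝓡 n).tangent 1 (fun x => (⟨x, Z x⟩ : TangentBundle (𝓡 n) N)))
    (hY : ∀ x, ¬ Crit n h x → 0 < dh n h x (Y x)) (hYZ : ∀ x, Crit n h x → Y x = Z x)
    {φ χ : ℝ → N → N} (hφ : FlowOn N φ) (hφY : ∀ x, IsMIntegralCurve (fun t => φ t x) Y)
    (hχ : ∀ x, χ 0 x = x) (hχZ : ∀ x, IsMIntegralCurve (fun t => χ t x) Z)
    {m : ℕ} (M : Fin m → Set N) (hcl : ∀ i, IsClosed (M i))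
    (hinv : ∀ i t, χ t '' M i = M i) (hdis : ∀ i j, i ≠ j → Disjoint (M i) (M j))
    (hC : ∀ i, ∀ x ∈ M i, Crit n h x)
    (htr : ∀ i, ∃ x ∈ M i, M i ⊆ closure {y | ∃ t : ℝ, 0 ≤ t ∧ y = χ t x})
    (hcov : {x | ∀ t, Crit n h (χ t x)} ⊆ ⋃ i, M i) :
    (∀ p, ∃ i, omegaF φ p ⊆ M i) ∧
      ∀ (_ : MeasurableSpace N) (μ : Measure N), FiniteAttractorsF μ φ := by
  have hYc : ∀ x, Crit n h x → dh n h x (Y x) = 0 := by
    intro x hx
    unfold dh
    rw [hx]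
    rfl
  have hY0 : ∀ x, 0 ≤ dh n h x (Y x) := by
    intro x
    by_cases hx : Crit n h x
    · exact (hYc x hx).ge
    · exact (hY x hx).le
  have hY2 : ∀ x, dh n h x (Y x) = 0 → Crit n h x := by
    intro x hx
    by_contra hx2
    exact (hY x hx2).ne' hx
  have hω : ∀ p, ∃ i, omegaF φ p ⊆ M i := by
    intro p
    refine omega_one hφ M hcl hdis fun q hq => hcov fun t => ?_
    have h1 : (fun t => χ t q) = fun t => φ t q := by
      refine orbit_eq hZ1 ?_ (hχZ q) (hφY q) fun t => ?_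
      · rw [hχ, hφ.zero]
      · exact (hYZ _ (omega_crit hh hY0 hY2 hφ hφY (omega_shift hφ hq t))).symm
    rw [congrFun h1 t]
    exact omega_crit hh hY0 hY2 hφ hφY (omega_shift hφ hq t)
  have hM : ∀ i, ∀ x ∈ M i, ∀ t, φ t x = χ t x := by
    intro i x hx t
    have h1 : (fun t => φ t x) = fun t => χ t x := by
      refine orbit_eq hY1 ?_ (hφY x) (hχZ x) fun t => ?_
      · rw [hχ, hφ.zero]
      · refine hYZ _ (hC i _ ?_)
        rw [← hinv i t]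
        exact mem_image_of_mem _ hx
    exact congrFun h1 t
  refine ⟨hω, fun _ μ => finite_of_pieces M (fun i t => ?_) (fun i => ?_) hω μ⟩
  · rw [← hinv i t]
    conv_lhs => rw [hinv i t]
    exact image_congr fun x hx => hM i x hx t
  · obtain ⟨x, hx, hx2⟩ := htr i
    refine ⟨x, hx, hx2.trans (closure_mono ?_)⟩
    rintro y ⟨t, ht, rfl⟩
    exact ⟨t, ht, (hM i x hx t).symm⟩

end Pool.Agent.U1.VF
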