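import Mathlib

/-! Functions with nondegenerate critical points: the local part. -/

set_option autoImplicit false

open scoped ContDiff Topology
open Set Filter MeasureTheory

namespace Pool.Agent.U1.VF

variable {n : ℕ} {ι : Type*} [Fintype ι]


/-- the gradient -/
noncomputable def gr (u : (EuclideanSpace ℝ (Fin n)) → ℝ) (v : (EuclideanSpace ℝ (Fin n))) : (EuclideanSpace ℝ (Fin n)) :=
  (InnerProductSpace.toDual ℝ (EuclideanSpace ℝ (Fin n))).symm (fderiv ℝ u v)

theorem inner_gr (u : (EuclideanSpace ℝ (Fin n)) → ℝ) (v y : (EuclideanSpace ℝ (Fin n))) : inner ℝ (gr u v) y = fderiv ℝ u v y := by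
  unfold gr
  rw [InnerProductSpace.toDual_symm_apply]

/-- the gradient of `u + ∑ a j • w j` -/
noncomputable def FF (u : (EuclideanSpace ℝ (Fin n)) → ℝ) (w : ι → (EuclideanSpace ℝ (Fin n)) → ℝ) (a : ι → ℝ) (v : (EuclideanSpace ℝ (Fin n))) : (EuclideanSpace ℝ (Fin n)) :=
  gr u v + ∑ j, a j • gr (w j) v

/-- the Hessian of `u + ∑ a j • w j` -/
noncomputable def FF' (u : (EuclideanSpace ℝ (Fin n)) → ℝ) (w : ι → (EuclideanSpace ℝ (Fin n)) → ℝ) (a : ι → ℝ) (v : (EuclideanSpace ℝ (Fin n))) : (EuclideanSpace ℝ (Fin n)) →L[ℝ] (EuclideanSpace ℝ (Fin n)) :=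
  fderiv ℝ (gr u) v + ∑ j, a j • fderiv ℝ (gr (w j)) v

theorem gr_smooth {u : (EuclideanSpace ℝ (Fin n)) → ℝ} {T : Set (EuclideanSpace ℝ (Fin n))} (hT : IsOpen T) (hu : ContDiffOn ℝ ∞ u T) :
    ContDiffOn ℝ ∞ (gr u) T :=
  (InnerProductSpace.toDual ℝ (EuclideanSpace ℝ (Fin n))).symm.toContinuousLinearEquiv.contDiff.comp_contDiffOn
    (hu.fderiv_of_isOpen (m := ∞) hT (by simp))

theorem gr_hasFDerivAt {u : (EuclideanSpace ℝ (Fin n)) → ℝ} {T : Set (EuclideanSpace ℝ (Fin n))} (hT : IsOpen T) (hu : ContDiffOn ℝ ∞ u T)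
    {v : (EuclideanSpace ℝ (Fin n))} (hv : v ∈ T) : HasFDerivAt (gr u) (fderiv ℝ (gr u) v) v :=
  (((gr_smooth hT hu).contDiffAt (hT.mem_nhds hv)).differentiableAt (by simp)).hasFDerivAt

theorem FF_hasFDerivAt {u : (EuclideanSpace ℝ (Fin n)) → ℝ} {w : ι → (EuclideanSpace ℝ (Fin n)) → ℝ} {T : Set (EuclideanSpace ℝ (Fin n))} (hT : IsOpen T)
    (hu : ContDiffOn ℝ ∞ u T) (hw : ∀ j, ContDiffOn ℝ ∞ (w j) T) (a : ι → ℝ) {v : (EuclideanSpace ℝ (Fin n))}
    (hv : v ∈ T) : HasFDerivAt (FF u w a) (FF' u w a v) v := by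
  have h1 : HasFDerivAt (fun v => ∑ j, a j • gr (w j) v) (∑ j, a j • fderiv ℝ (gr (w j)) v) v :=
    HasFDerivAt.fun_sum fun j _ => (gr_hasFDerivAt hT (hw j) hv).const_smul (a j)
  exact (gr_hasFDerivAt hT hu hv).add h1

/-- no degenerate critical point in `K` -/
def Good (u : (EuclideanSpace ℝ (Fin n)) → ℝ) (w : ι → (EuclideanSpace ℝ (Fin n)) → ℝ) (K : Set (EuclideanSpace ℝ (Fin n))) : Set (ι → ℝ) :=
  {a | ∀ v ∈ K, ¬ (FF u w a v = 0 ∧ (FF' u w a v).det = 0)}

theorem good_open {u : (EuclideanSpace ℝ (Fin n)) → ℝ} {w : ι → (EuclideanSpace ℝ (Fin n)) → ℝ} {T K : Set (EuclideanSpace ℝ (Fin n))} (hT : IsOpen T)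
    (hu : ContDiffOn ℝ ∞ u T) (hw : ∀ j, ContDiffOn ℝ ∞ (w j) T) (hK : IsCompact K)
    (hKT : K ⊆ T) : IsOpen (Good u w K) := by
  rw [isOpen_iff_eventually]
  intro a ha
  refine hK.eventually_forall_of_forall_eventually fun v hv => ?_
  have hvT : T ∈ 𝓝 v := hT.mem_nhds (hKT hv)
  have k1 : ∀ {g : (EuclideanSpace ℝ (Fin n)) → ℝ}, ContDiffOn ℝ ∞ g T →
      ContinuousAt (fun z : (ι → ℝ) × (EuclideanSpace ℝ (Fin n)) => gr g z.2) (a, v) := fun hg =>
    ContinuousAt.comp (f := fun z : (ι → ℝ) × (EuclideanSpace ℝ (Fin n)) => z.2) (x := (a, v))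
      (((gr_smooth hT hg).continuousOn).continuousAt hvT) continuousAt_snd
  have k2 : ∀ {g : (EuclideanSpace ℝ (Fin n)) → ℝ}, ContDiffOn ℝ ∞ g T →
      ContinuousAt (fun z : (ι → ℝ) × (EuclideanSpace ℝ (Fin n)) => fderiv ℝ (gr g) z.2) (a, v) := fun hg =>
    ContinuousAt.comp (f := fun z : (ι → ℝ) × (EuclideanSpace ℝ (Fin n)) => z.2) (x := (a, v))
      ((((gr_smooth hT hg).fderiv_of_isOpen (m := ∞) hT (by simp)).continuousOn).continuousAt hvT)
      continuousAt_snd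
  have k3 : ∀ j, ContinuousAt (fun z : (ι → ℝ) × (EuclideanSpace ℝ (Fin n)) => z.1 j) (a, v) := fun j =>
    ((continuous_apply j).comp continuous_fst).continuousAt
  have c1 : ContinuousAt (fun z : (ι → ℝ) × (EuclideanSpace ℝ (Fin n)) => FF u w z.1 z.2) (a, v) := by
    refine (k1 hu).add ?_
    exact tendsto_finsetSum _ fun j _ => (k3 j).smul (k1 (hw j))
  have c2' : ContinuousAt (fun z : (ι → ℝ) × (EuclideanSpace ℝ (Fin n)) => FF' u w z.1 z.2) (a, v) := by
    refine (k2 hu).add ?_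
    exact tendsto_finsetSum _ fun j _ => (k3 j).smul (k2 (hw j))
  have c2 : ContinuousAt (fun z : (ι → ℝ) × (EuclideanSpace ℝ (Fin n)) => (FF' u w z.1 z.2).det) (a, v) :=
    ContinuousAt.comp (g := fun A : (EuclideanSpace ℝ (Fin n)) →L[ℝ] (EuclideanSpace ℝ (Fin n)) => A.det)
      ContinuousLinearMap.continuous_det.continuousAt c2'
  by_cases h1 : FF u w a v = 0
  · have h2 : (FF' u w a v).det ≠ 0 := fun h => ha v hv ⟨h1, h⟩
    filter_upwards [c2.eventually_ne h2] with z hz h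
    exact hz h.2
  · filter_upwards [c1.eventually_ne h1] with z hz h
    exact hz h.1

theorem finite_zeros {u : (EuclideanSpace ℝ (Fin n)) → ℝ} {w : ι → (EuclideanSpace ℝ (Fin n)) → ℝ} {T K : Set (EuclideanSpace ℝ (Fin n))} (hT : IsOpen T)
    (hu : ContDiffOn ℝ ∞ u T) (hw : ∀ j, ContDiffOn ℝ ∞ (w j) T) (hK : IsCompact K)
    (hKT : K ⊆ T) {a : ι → ℝ} (ha : a ∈ Good u w K) : {v | v ∈ K ∧ FF u w a v = 0}.Finite := by
  by_contra hinf
  obtain ⟨x, hxK, hx⟩ := Set.Infinite.exists_accPt_of_subset_isCompact hinf hK (fun v hv => hv.1)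
  have hd := FF_hasFDerivAt hT hu hw a (hKT hxK)
  rw [accPt_iff_frequently] at hx
  have hx0 : FF u w a x = 0 := by
    by_contra hne
    have h1 := hd.continuousAt.eventually_ne hne
    obtain ⟨y, hy1, hy2⟩ := (hx.and_eventually h1).exists
    exact hy2 hy1.2.2
  have hdet : (FF' u w a x).det ≠ 0 := fun h => ha x hxK ⟨hx0, h⟩
  let e := (FF' u w a x).toContinuousLinearEquivOfDetNeZero hdet
  have hb : ∃ C, AntilipschitzWith C (FF' u w a x) := ⟨_, e.antilipschitz⟩
  have h1 := hd.eventually_ne (c := 0) hb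
  rw [eventually_nhdsWithin_iff] at h1
  obtain ⟨y, hy1, hy2⟩ := (hx.and_eventually h1).exists
  exact hy2 hy1.1 hy1.2.2

theorem gr_coord {g : (EuclideanSpace ℝ (Fin n)) → ℝ} {v : (EuclideanSpace ℝ (Fin n))} {i : Fin n} (hg : g =ᶠ[𝓝 v] fun v => v i) (y : (EuclideanSpace ℝ (Fin n))) :
    inner ℝ (gr g v) y = y i := by
  rw [inner_gr, hg.fderiv_eq]
  have h1 : HasFDerivAt (fun v : (EuclideanSpace ℝ (Fin n)) => v i) (EuclideanSpace.proj i : (EuclideanSpace ℝ (Fin n)) →L[ℝ] ℝ) v :=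
    (EuclideanSpace.proj i : (EuclideanSpace ℝ (Fin n)) →L[ℝ] ℝ).hasFDerivAt
  rw [h1.fderiv]
  rfl

theorem good_dense {u : (EuclideanSpace ℝ (Fin n)) → ℝ} {w : ι → (EuclideanSpace ℝ (Fin n)) → ℝ} {T K : Set (EuclideanSpace ℝ (Fin n))} (hT : IsOpen T)
    (hu : ContDiffOn ℝ ∞ u T) (hw : ∀ j, ContDiffOn ℝ ∞ (w j) T)
    (hKT : K ⊆ T) (e : Fin n → ι) (he : ∀ i, ∀ v ∈ K, w (e i) =ᶠ[𝓝 v] fun v => v i) :
    Dense (Good u w K) := by
  classical
  intro a
  let β : (EuclideanSpace ℝ (Fin n)) → ι → ℝ := fun b j => ∑ i, if e i = j then b i else 0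
  have hβc : Continuous β := by
    refine continuous_pi fun j => continuous_finsetSum _ fun i _ => ?_
    by_cases h : e i = j
    · simp only [h, if_true]
      exact (EuclideanSpace.proj i : (EuclideanSpace ℝ (Fin n)) →L[ℝ] ℝ).continuous
    · simp only [h, if_false]
      exact continuous_const
  have hβ0 : β 0 = 0 := by
    funext j
    simp [β]
  have hsum : ∀ {W : Type} [AddCommGroup W] [Module ℝ W] (g : ι → W) (b : (EuclideanSpace ℝ (Fin n))),
      ∑ j, β b j • g j = ∑ i, b i • g (e i) := by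
    intro W _ _ g b
    simp only [β, Finset.sum_smul, ite_smul, zero_smul]
    rw [Finset.sum_comm]
    refine Finset.sum_congr rfl fun i _ => ?_
    rw [Finset.sum_ite_eq]
    simp
  have hF : ∀ v ∈ K, ∀ b, FF u w (a + β b) v = FF u w a v + b := by
    intro v hv b
    unfold FF
    have e1 : ∑ j, (a + β b) j • gr (w j) v = ∑ j, a j • gr (w j) v + ∑ j, β b j • gr (w j) v := by
      rw [← Finset.sum_add_distrib]
      refine Finset.sum_congr rfl fun j _ => ?_
      rw [Pi.add_apply, add_smul]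
    have e2 : ∑ j, β b j • gr (w j) v = b := by
      rw [hsum]
      refine ext_inner_right ℝ fun y => ?_
      rw [sum_inner]
      simp only [inner_smul_left, gr_coord (he _ v hv)]
      rw [PiLp.inner_apply]
      refine Finset.sum_congr rfl fun i _ => ?_
      simp [mul_comm]
    rw [e1, e2, add_assoc]
  have hF' : ∀ v ∈ K, ∀ b, FF' u w (a + β b) v = FF' u w a v := by
    intro v hv b
    unfold FF'
    have e1 : ∑ j, (a + β b) j • fderiv ℝ (gr (w j)) v =
        ∑ j, a j • fderiv ℝ (gr (w j)) v + ∑ j, β b j • fderiv ℝ (gr (w j)) v := by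
      rw [← Finset.sum_add_distrib]
      refine Finset.sum_congr rfl fun j _ => ?_
      exact add_smul (a j) (β b j) (fderiv ℝ (gr (w j)) v)
    have e2 : ∑ j, β b j • fderiv ℝ (gr (w j)) v = 0 := by
      refine (hsum (fun j => fderiv ℝ (gr (w j)) v) b).trans ?_
      refine Finset.sum_eq_zero fun i _ => ?_
      have h1 : gr (w (e i)) =ᶠ[𝓝 v] fun _ => gr (w (e i)) v := by
        filter_upwards [(he i v hv).eventuallyEq_nhds] with v' hv'
        refine ext_inner_right ℝ fun y => ?_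
        rw [gr_coord hv', gr_coord (he i v hv)]
      rw [h1.fderiv_eq, fderiv_fun_const, Pi.zero_apply, smul_zero]
    rw [e1, e2, add_zero]
  set S : Set (EuclideanSpace ℝ (Fin n)) := {v | v ∈ K ∧ (FF' u w a v).det = 0} with hS
  have hnull : (volume : Measure (EuclideanSpace ℝ (Fin n))) ((fun v => - FF u w a v) '' S) = 0 := by
    refine addHaar_image_eq_zero_of_det_fderivWithin_eq_zero volume (f' := fun v => - FF' u w a v)
      (fun v hv => ?_) fun v hv => ?_
    · exact (FF_hasFDerivAt hT hu hw a (hKT hv.1)).neg.hasFDerivWithinAt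
    · have h1 : (- FF' u w a v).det = (-1) ^ n * (FF' u w a v).det := by
        unfold ContinuousLinearMap.det
        rw [ContinuousLinearMap.toLinearMap_neg, ← neg_one_smul ℝ, LinearMap.det_smul]
        simp
      rw [h1, hv.2, mul_zero]
  have hd : Dense {b : (EuclideanSpace ℝ (Fin n)) | b ∉ (fun v => - FF u w a v) '' S} := by
    refine Measure.dense_of_ae (μ := (volume : Measure (EuclideanSpace ℝ (Fin n)))) ?_
    rw [ae_iff]
    simp only [not_not]
    exact hnull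
  have h0 : (0 : (EuclideanSpace ℝ (Fin n))) ∈ closure {b : (EuclideanSpace ℝ (Fin n)) | b ∉ (fun v => - FF u w a v) '' S} := hd 0
  have h1 : a + β 0 ∈ closure ((fun b => a + β b) '' {b : (EuclideanSpace ℝ (Fin n)) | b ∉ (fun v => - FF u w a v) '' S}) :=
    image_closure_subset_closure_image (continuous_const.add hβc) (mem_image_of_mem _ h0)
  rw [hβ0, add_zero] at h1
  refine closure_mono ?_ h1
  rintro _ ⟨b, hb, rfl⟩ v hv ⟨h2, h3⟩
  rw [hF v hv] at h2
  rw [hF' v hv] at h3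
  exact hb ⟨v, ⟨hv, h3⟩, (eq_neg_of_add_eq_zero_right h2).symm⟩

end Pool.Agent.U1.VF
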