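import Pool.Agent.U1.VF.Grad
import Pool.Agent.U1.VF.Loc

/-! Functions with finitely many critical points are dense. -/

set_option autoImplicit false

open scoped Manifold ContDiff Topology Bundle
open Set Filter

universe u

namespace Pool.Agent.U1.VF

variable {n : ℕ} {N : Type u} [TopologicalSpace N]
  [ChartedSpace (EuclideanSpace ℝ (Fin n)) N] [IsManifold (𝓡 n) ∞ N]

set_option linter.unusedSectionVars false


theorem smooth_comb {ι : Type*} [Fintype ι] {h : N → ℝ} (hh : ContMDiff (𝓡 n) 𝓘(ℝ, ℝ) ∞ h)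
    {f : ι → N → ℝ} (hf : ∀ j, ContMDiff (𝓡 n) 𝓘(ℝ, ℝ) ∞ (f j)) (a : ι → ℝ) :
    ContMDiff (𝓡 n) 𝓘(ℝ, ℝ) ∞ (fun x => h x + ∑ j, a j * f j x) :=
  hh.add (contMDiff_finsetSum fun j _ => contMDiff_const.mul (hf j))

theorem FF_of_crit {ι : Type*} [Fintype ι] {h : N → ℝ} (hh : ContMDiff (𝓡 n) 𝓘(ℝ, ℝ) ∞ h)
    {f : ι → N → ℝ} (hf : ∀ j, ContMDiff (𝓡 n) 𝓘(ℝ, ℝ) ∞ (f j)) (a : ι → ℝ) (c : N) {x : N}
    (hx : x ∈ (chartAt (EuclideanSpace ℝ (Fin n)) c).source) (hC : Crit n (fun x => h x + ∑ j, a j * f j x) x) :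
    FF (fun v => h ((extChartAt (𝓡 n) c).symm v)) (fun j v => f j ((extChartAt (𝓡 n) c).symm v))
      a (extChartAt (𝓡 n) c x) = 0 := by
  have hxT : extChartAt (𝓡 n) c x ∈ (extChartAt (𝓡 n) c).target :=
    (extChartAt (𝓡 n) c).map_source (by rwa [extChartAt_source])
  have hT := (isOpen_extChartAt_target (I := 𝓡 n) c).mem_nhds hxT
  have k1 : ∀ {g : N → ℝ}, ContMDiff (𝓡 n) 𝓘(ℝ, ℝ) ∞ g →
      HasFDerivAt (fun v => g ((extChartAt (𝓡 n) c).symm v))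
        (fderiv ℝ (fun v => g ((extChartAt (𝓡 n) c).symm v)) (extChartAt (𝓡 n) c x))
        (extChartAt (𝓡 n) c x) := fun hg =>
    (((cd_loc hg c).contDiffAt hT).differentiableAt (by simp)).hasFDerivAt
  have h1 := dh_loc (smooth_comb hh hf a) c hx
  have h2 : HasFDerivAt (fun v => h ((extChartAt (𝓡 n) c).symm v) +
      ∑ j, a j * f j ((extChartAt (𝓡 n) c).symm v))
      (fderiv ℝ (fun v => h ((extChartAt (𝓡 n) c).symm v)) (extChartAt (𝓡 n) c x) +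
        ∑ j, a j • fderiv ℝ (fun v => f j ((extChartAt (𝓡 n) c).symm v))
          (extChartAt (𝓡 n) c x)) (extChartAt (𝓡 n) c x) :=
    (k1 hh).add (HasFDerivAt.fun_sum fun j _ => (k1 (hf j)).const_mul (a j))
  refine ext_inner_right ℝ fun y => ?_
  rw [inner_zero_left]
  unfold FF
  rw [inner_add_left, sum_inner, inner_gr]
  have h3 := h1 y
  unfold dh at h3
  rw [hC] at h3
  have h4 : fderiv ℝ (fun v => h ((extChartAt (𝓡 n) c).symm v) +
      ∑ j, a j * f j ((extChartAt (𝓡 n) c).symm v)) (extChartAt (𝓡 n) c x) y = 0 := h3.symm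
  rw [h2.fderiv] at h4
  rw [← h4, _root_.add_apply, _root_.sum_apply]
  congr 1
  refine Finset.sum_congr rfl fun j _ => ?_
  rw [real_inner_smul_left, inner_gr]
  rfl

variable (n N) in
/-- **Density of functions with finitely many critical points.** -/
theorem exists_generic [T2Space N] [CompactSpace N] :
    ∃ (ι : Type) (_ : Fintype ι) (f : ι → N → ℝ), (∀ j, ContMDiff (𝓡 n) 𝓘(ℝ, ℝ) ∞ (f j)) ∧
      ∀ h : N → ℝ, ContMDiff (𝓡 n) 𝓘(ℝ, ℝ) ∞ h → ∃ D : Set (ι → ℝ), IsOpen D ∧ Dense D ∧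
        ∀ a ∈ D, {x | Crit n (fun x => h x + ∑ j, a j * f j x) x}.Finite := by
  classical
  have hloc : ∀ c : N, ∃ (b : SmoothBumpFunction (𝓡 n) c) (K : Set N), IsCompact K ∧ K ∈ 𝓝 c ∧
      K ⊆ interior {y | b y = 1} ∩ (chartAt (EuclideanSpace ℝ (Fin n)) c).source := by
    intro c
    obtain ⟨b⟩ : Nonempty (SmoothBumpFunction (𝓡 n) c) := inferInstance
    have h1 : interior {y | b y = 1} ∩ (chartAt (EuclideanSpace ℝ (Fin n)) c).source ∈ 𝓝 c := by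
      refine inter_mem ?_ ((chartAt (EuclideanSpace ℝ (Fin n)) c).open_source.mem_nhds (mem_chart_source (EuclideanSpace ℝ (Fin n)) c))
      exact interior_mem_nhds.2 b.eventuallyEq_one
    obtain ⟨K, hK1, hK2, hK3⟩ := local_compact_nhds h1
    exact ⟨b, K, hK3, hK1, hK2⟩
  choose b K hKc hKn hKs using hloc
  obtain ⟨t, ht⟩ := CompactSpace.elim_nhds_subcover K hKn
  let ctr : Fin t.card → N := fun l => (t.equivFin.symm l : N)
  let f : Fin t.card × Fin n → N → ℝ := fun j y =>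
    b (ctr j.1) y * (extChartAt (𝓡 n) (ctr j.1) y) j.2
  have hf : ∀ j, ContMDiff (𝓡 n) 𝓘(ℝ, ℝ) ∞ (f j) := by
    intro j
    have h1 : ContMDiffOn (𝓡 n) 𝓘(ℝ, ℝ) ∞ (fun y => (extChartAt (𝓡 n) (ctr j.1) y) j.2)
        (chartAt (EuclideanSpace ℝ (Fin n)) (ctr j.1)).source :=
      (EuclideanSpace.proj j.2 : (EuclideanSpace ℝ (Fin n)) →L[ℝ] ℝ).contMDiff.comp_contMDiffOn contMDiffOn_extChartAt
    exact (b (ctr j.1)).contMDiff_smul h1
  refine ⟨Fin t.card × Fin n, inferInstance, f, hf, fun h hh => ?_⟩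
  let u : Fin t.card → (EuclideanSpace ℝ (Fin n)) → ℝ := fun l v => h ((extChartAt (𝓡 n) (ctr l)).symm v)
  let w : Fin t.card → Fin t.card × Fin n → (EuclideanSpace ℝ (Fin n)) → ℝ := fun l j v =>
    f j ((extChartAt (𝓡 n) (ctr l)).symm v)
  let K' : Fin t.card → Set (EuclideanSpace ℝ (Fin n)) := fun l => extChartAt (𝓡 n) (ctr l) '' K (ctr l)
  have hT : ∀ l, IsOpen (extChartAt (𝓡 n) (ctr l)).target := fun l => isOpen_extChartAt_target _
  have hu : ∀ l, ContDiffOn ℝ ∞ (u l) (extChartAt (𝓡 n) (ctr l)).target := fun l => cd_loc hh _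
  have hw : ∀ l j, ContDiffOn ℝ ∞ (w l j) (extChartAt (𝓡 n) (ctr l)).target :=
    fun l j => cd_loc (hf j) _
  have hKsrc : ∀ c : N, K c ⊆ (extChartAt (𝓡 n) c).source := fun c y hy => by
    rw [extChartAt_source]
    exact (hKs c hy).2
  have hK'T : ∀ l, K' l ⊆ (extChartAt (𝓡 n) (ctr l)).target := by
    rintro l _ ⟨y, hy, rfl⟩
    exact (extChartAt (𝓡 n) (ctr l)).map_source (hKsrc _ hy)
  have hK'c : ∀ l, IsCompact (K' l) := fun l =>
    (hKc _).image_of_continuousOn ((continuousOn_extChartAt _).mono (hKsrc _))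
  have he : ∀ l i, ∀ v ∈ K' l, w l (l, i) =ᶠ[𝓝 v] fun v => v i := by
    rintro l i _ ⟨y, hy, rfl⟩
    have h1 : ContinuousAt (extChartAt (𝓡 n) (ctr l)).symm (extChartAt (𝓡 n) (ctr l) y) :=
      continuousAt_extChartAt_symm'' (hK'T l ⟨y, hy, rfl⟩)
    have h2 : (extChartAt (𝓡 n) (ctr l)).symm (extChartAt (𝓡 n) (ctr l) y) = y :=
      (extChartAt (𝓡 n) (ctr l)).left_inv (hKsrc _ hy)
    have h3 : interior {y | b (ctr l) y = 1} ∈
        𝓝 ((extChartAt (𝓡 n) (ctr l)).symm (extChartAt (𝓡 n) (ctr l) y)) := by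
      rw [h2]
      exact isOpen_interior.mem_nhds (hKs _ hy).1
    filter_upwards [h1 h3, (hT l).mem_nhds (hK'T l ⟨y, hy, rfl⟩)] with v hv1 hv2
    have h4' : (extChartAt (𝓡 n) (ctr l)).symm v ∈ {y | b (ctr l) y = 1} := interior_subset hv1
    have h4 : b (ctr l) ((extChartAt (𝓡 n) (ctr l)).symm v) = 1 := h4'
    show b (ctr l) ((extChartAt (𝓡 n) (ctr l)).symm v) *
      (extChartAt (𝓡 n) (ctr l) ((extChartAt (𝓡 n) (ctr l)).symm v)) i = v i
    rw [h4, one_mul, (extChartAt (𝓡 n) (ctr l)).right_inv hv2]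
  have ho : ∀ l, IsOpen (Good (u l) (w l) (K' l)) := fun l =>
    good_open (hT l) (hu l) (hw l) (hK'c l) (hK'T l)
  refine ⟨⋂ l, Good (u l) (w l) (K' l), isOpen_iInter_of_finite ho,
    dense_iInter_of_isOpen ho fun l => good_dense (hT l) (hu l) (hw l) (hK'T l)
      (fun i => (l, i)) (he l), fun a ha => ?_⟩
  have hfin : (⋃ l, (extChartAt (𝓡 n) (ctr l)).symm '' {v | v ∈ K' l ∧ FF (u l) (w l) a v = 0}).Finite :=
    finite_iUnion fun l => (finite_zeros (hT l) (hu l) (hw l) (hK'c l) (hK'T l)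
      (mem_iInter.1 ha l)).image _
  refine hfin.subset fun x hx => ?_
  have hx2 : x ∈ ⋃ c ∈ t, K c := by rw [ht]; trivial
  obtain ⟨c, hc, hxc⟩ := mem_iUnion₂.1 hx2
  obtain ⟨l, rfl⟩ : ∃ l, ctr l = c := ⟨t.equivFin ⟨c, hc⟩, by simp [ctr]⟩
  refine mem_iUnion.2 ⟨l, extChartAt (𝓡 n) (ctr l) x, ⟨⟨x, hxc, rfl⟩, ?_⟩,
    (extChartAt (𝓡 n) (ctr l)).left_inv (hKsrc _ hxc)⟩
  exact FF_of_crit hh hf a (ctr l) (hKs _ hxc).2 hx

end Pool.Agent.U1.VF
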