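import Pool.Agent.U1.VF.Defs

/-! The `C^r` topology on the vector fields of a manifold. -/

set_option autoImplicit false

open scoped Manifold ContDiff Topology Bundle
open Set Filter

universe u

namespace Pool.Agent.U1.VF

/-- the `C^r` vector fields on `N` -/
def Fields (n : ℕ) (N : Type u) [TopologicalSpace N]
    [ChartedSpace (EuclideanSpace ℝ (Fin n)) N] [IsManifold (𝓡 n) ∞ N] (r : ℕ∞) : Type u :=
  {X : Field n N // IsC r X}

/-- the inverse of the chart at `c` -/
noncomputable def cinv (n : ℕ) {N : Type u} [TopologicalSpace N]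
    [ChartedSpace (EuclideanSpace ℝ (Fin n)) N] (c : N) (v : EuclideanSpace ℝ (Fin n)) : N :=
  (extChartAt (𝓡 n) c).symm v

/-- the derivative at `y` of the chart at `c` -/
noncomputable def dchart (n : ℕ) {N : Type u} [TopologicalSpace N]
    [ChartedSpace (EuclideanSpace ℝ (Fin n)) N] (c y : N) :
    TangentSpace (𝓡 n) y →L[ℝ] EuclideanSpace ℝ (Fin n) :=
  mfderiv (𝓡 n) 𝓘(ℝ, EuclideanSpace ℝ (Fin n)) (extChartAt (𝓡 n) c) y

/-- the local representative of the vector field `X` in the chart at `c` -/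
noncomputable def rep (n : ℕ) {N : Type u} [TopologicalSpace N]
    [ChartedSpace (EuclideanSpace ℝ (Fin n)) N] (c : N) (X : Field n N)
    (v : EuclideanSpace ℝ (Fin n)) : EuclideanSpace ℝ (Fin n) :=
  dchart n c (cinv n c v) (X (cinv n c v))

/-- the fields `Y` such that the `m`-th derivatives of the local representatives of `X` and `Y` at `c`
differ by less than `ε` on `K` -/
def crBall {n : ℕ} {N : Type u} [TopologicalSpace N]
    [ChartedSpace (EuclideanSpace ℝ (Fin n)) N] [IsManifold (𝓡 n) ∞ N] {r : ℕ∞}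
    (c : N) (K : Set (EuclideanSpace ℝ (Fin n))) (m : ℕ) (X : Fields n N r) (ε : ℝ) :
    Set (Fields n N r) :=
  {Y | ∀ v ∈ K, ‖iteratedFDeriv ℝ m (rep n c Y.1) v - iteratedFDeriv ℝ m (rep n c X.1) v‖ < ε}

/-- The `C^r` topology on the space of `C^r` vector fields: `Y` is close to `X` if, in finitely many
charts, the derivatives up to order `r` of the local representatives are uniformly close on
compact sets. -/
@[reducible] def crTop (n : ℕ) (N : Type u) [TopologicalSpace N]
    [ChartedSpace (EuclideanSpace ℝ (Fin n)) N] [IsManifold (𝓡 n) ∞ N] (r : ℕ∞) :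
    TopologicalSpace (Fields n N r) :=
  TopologicalSpace.generateFrom {U | ∃ (c : N) (K : Set (EuclideanSpace ℝ (Fin n))) (m : ℕ)
    (X : Fields n N r) (ε : ℝ), IsCompact K ∧ K ⊆ (extChartAt (𝓡 n) c).target ∧ (m : ℕ∞) ≤ r ∧
      U = crBall c K m X ε}

variable {n : ℕ} {N : Type u} [TopologicalSpace N]
  [ChartedSpace (EuclideanSpace ℝ (Fin n)) N] [IsManifold (𝓡 n) ∞ N]

set_option linter.unusedSectionVars false


theorem rep_smooth {r : ℕ∞} (X : Fields n N r) (c : N) :
    ContDiffOn ℝ r (rep n c X.1) (extChartAt (𝓡 n) c).target := by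
  have hb : (trivializationAt (EuclideanSpace ℝ (Fin n)) (TangentSpace (𝓡 n)) c).baseSet = (chartAt (EuclideanSpace ℝ (Fin n)) c).source :=
    TangentBundle.trivializationAt_baseSet c
  have h1 := ((trivializationAt (EuclideanSpace ℝ (Fin n)) (TangentSpace (𝓡 n)) c).contMDiffOn_section_baseSet_iff
    (IB := 𝓡 n) (n := r) (s := X.1)).1 X.2.contMDiffOn
  rw [hb] at h1
  have h2 := h1.comp ((contMDiffOn_extChartAt_symm (n := (r : ℕ∞ω)) (I := 𝓡 n) c))
    (fun v hv => by
      have := (extChartAt (𝓡 n) c).map_target hv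
      rwa [extChartAt_source] at this)
  refine (contMDiffOn_iff_contDiffOn.1 h2).congr fun v hv => ?_
  have hs : (extChartAt (𝓡 n) c).symm v ∈ (chartAt (EuclideanSpace ℝ (Fin n)) c).source := by
    have := (extChartAt (𝓡 n) c).map_target hv
    rwa [extChartAt_source] at this
  have h3 := TangentBundle.continuousLinearMapAt_trivializationAt (I := 𝓡 n) (x₀ := c) hs
  have h4 := (trivializationAt (EuclideanSpace ℝ (Fin n)) (TangentSpace (𝓡 n)) c).continuousLinearMapAt_apply_of_mem
    (R := ℝ) (b := (extChartAt (𝓡 n) c).symm v) (by rw [hb]; exact hs)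
    (X.1 ((extChartAt (𝓡 n) c).symm v))
  rw [h3] at h4
  exact h4

/-- `X + ∑ a j • Z j` -/
noncomputable def comb {ι : Type} [Fintype ι] {r : ℕ∞} (X : Fields n N r) (Z : ι → Fields n N r)
    (a : ι → ℝ) : Fields n N r :=
  ⟨fun x => X.1 x + ∑ j, a j • (Z j).1 x, by
    have h1 : ContMDiff (𝓡 n) (𝓡 n).tangent r
        (fun x => (⟨x, ∑ j, a j • (Z j).1 x⟩ : TangentBundle (𝓡 n) N)) :=
      ContMDiff.sum_section fun j _ => ContMDiff.const_smul_section (a := a j) (Z j).2
    exact ContMDiff.add_section X.2 h1⟩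

theorem rep_comb {ι : Type} [Fintype ι] {r : ℕ∞} (X : Fields n N r) (Z : ι → Fields n N r)
    (a : ι → ℝ) (c : N) :
    rep n c (comb X Z a).1 = fun v => rep n c X.1 v + ∑ j, a j • rep n c (Z j).1 v := by
  funext v
  unfold rep comb
  simp only [map_add, map_sum, map_smul]

theorem iter_comb {ι : Type} [Fintype ι] {r : ℕ∞} (X : Fields n N r) (Z : ι → Fields n N r)
    (a : ι → ℝ) (c : N) {m : ℕ} (hm : (m : ℕ∞) ≤ r) {v : (EuclideanSpace ℝ (Fin n))}
    (hv : v ∈ (extChartAt (𝓡 n) c).target) :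
    iteratedFDeriv ℝ m (rep n c (comb X Z a).1) v = iteratedFDeriv ℝ m (rep n c X.1) v +
      ∑ j, a j • iteratedFDeriv ℝ m (rep n c (Z j).1) v := by
  have hT := (isOpen_extChartAt_target (I := 𝓡 n) c).mem_nhds hv
  have k : ∀ Y : Fields n N r, ContDiffAt ℝ m (rep n c Y.1) v := fun Y =>
    ((rep_smooth Y c).contDiffAt hT).of_le (by exact_mod_cast hm)
  rw [rep_comb]
  refine (iteratedFDeriv_add_apply (g := fun v => ∑ j, a j • rep n c (Z j).1 v) (k X)
    (ContDiffAt.sum fun j _ => (k (Z j)).const_smul (a j))).trans ?_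
  rw [iteratedFDeriv_fun_sum_apply fun j _ => (k (Z j)).const_smul (a j)]
  congr 1
  refine Finset.sum_congr rfl fun j _ => ?_
  exact iteratedFDeriv_const_smul_apply' (k (Z j))

theorem iter_cont {r : ℕ∞} (X : Fields n N r) (c : N) {m : ℕ} (hm : (m : ℕ∞) ≤ r) :
    ContinuousOn (iteratedFDeriv ℝ m (rep n c X.1)) (extChartAt (𝓡 n) c).target := by
  have h1 := (rep_smooth X c).continuousOn_iteratedFDerivWithin (m := m) (by exact_mod_cast hm)
    (isOpen_extChartAt_target (I := 𝓡 n) c).uniqueDiffOn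
  exact h1.congr fun v hv => (iteratedFDerivWithin_of_isOpen m
    (isOpen_extChartAt_target (I := 𝓡 n) c) hv).symm

theorem continuous_comb {ι : Type} [Fintype ι] {r : ℕ∞} (X : Fields n N r) (Z : ι → Fields n N r) :
    @Continuous (ι → ℝ) (Fields n N r) _ (crTop n N r) (comb X Z) := by
  refine continuous_generateFrom_iff.2 ?_
  rintro _ ⟨c, K, m, X₀, ε, hK, hKT, hm, rfl⟩
  rw [isOpen_iff_eventually]
  intro a ha
  refine hK.eventually_forall_of_forall_eventually fun v hv => ?_
  have hT := (isOpen_extChartAt_target (I := 𝓡 n) c).mem_nhds (hKT hv)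
  have k1 : ∀ Y : Fields n N r, ContinuousAt
      (fun z : (ι → ℝ) × (EuclideanSpace ℝ (Fin n)) => iteratedFDeriv ℝ m (rep n c Y.1) z.2) (a, v) := fun Y =>
    ContinuousAt.comp (f := fun z : (ι → ℝ) × (EuclideanSpace ℝ (Fin n)) => z.2) (x := (a, v))
      ((iter_cont Y c hm).continuousAt hT) continuousAt_snd
  have k3 : ∀ j, ContinuousAt (fun z : (ι → ℝ) × (EuclideanSpace ℝ (Fin n)) => z.1 j) (a, v) := fun j =>
    ((continuous_apply j).comp continuous_fst).continuousAt
  have c1 : ContinuousAt (fun z : (ι → ℝ) × (EuclideanSpace ℝ (Fin n)) => iteratedFDeriv ℝ m (rep n c X.1) z.2 +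
      ∑ j, z.1 j • iteratedFDeriv ℝ m (rep n c (Z j).1) z.2 -
      iteratedFDeriv ℝ m (rep n c X₀.1) z.2) (a, v) := by
    refine ((k1 X).add ?_).sub (k1 X₀)
    exact tendsto_finsetSum _ fun j _ => (k3 j).smul (k1 (Z j))
  have h1 : ‖iteratedFDeriv ℝ m (rep n c (comb X Z a).1) v -
        iteratedFDeriv ℝ m (rep n c X₀.1) v‖ < ε := ha v hv
  rw [iter_comb X Z a c hm (hKT hv)] at h1
  have h2 := c1.norm.eventually_lt (continuousAt_const (y := ε)) h1
  have h3 : ∀ᶠ z : (ι → ℝ) × (EuclideanSpace ℝ (Fin n)) in 𝓝 (a, v), z.2 ∈ (extChartAt (𝓡 n) c).target :=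
    continuousAt_snd.eventually hT
  filter_upwards [h2, h3] with z hz hz2
  rw [iter_comb X Z z.1 c hm hz2]
  exact hz

end Pool.Agent.U1.VF
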