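import Pool.Agent.U1.VF.Main
import Pool.Agent.U1.VF.Morse
import Pool.Agent.U1.VF.Top

/-! Vector fields in the closure of those with finitely many attractors. -/

set_option autoImplicit false

open scoped Manifold ContDiff Topology Bundle
open Set Filter MeasureTheory

universe u

namespace Pool.Agent.U1.VF


variable {n : ℕ} {N : Type u} [TopologicalSpace N]
  [ChartedSpace (EuclideanSpace ℝ (Fin n)) N] [IsManifold (𝓡 n) ∞ N]

set_option linter.unusedSectionVars false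


/-- finitely many attractors, for maps -/
theorem finite_of_pieces_map {f : N → N} {m : ℕ} (M : Fin m → Set N)
    (hinv : ∀ i, f '' M i = M i)
    (htr : ∀ i, ∃ x ∈ M i, M i ⊆ closure (range fun k : ℕ => f^[k] x))
    (hω : ∀ p, ∃ i, omegaLim f p ⊆ M i) [MeasurableSpace N] (μ : Measure N) :
    FiniteAttractors μ f := by
  classical
  let J := {i : Fin m // 0 < μ {p | omegaLim f p ⊆ M i}}
  let e : Fin (Fintype.card J) ≃ J := (Fintype.equivFin J).symm
  refine ⟨Fintype.card J, fun i => M (e i).1, fun i => ⟨hinv _, htr _, (e i).2⟩, ?_⟩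
  have h1 : μ (⋃ i : {i : Fin m // ¬ 0 < μ {p | omegaLim f p ⊆ M i}},
      {p | omegaLim f p ⊆ M i.1}) = 0 := by
    refine measure_iUnion_null fun i => ?_
    exact le_antisymm (not_lt.1 i.2) bot_le
  refine measure_mono_null ?_ h1
  intro p hp
  obtain ⟨i, hi⟩ := hω p
  refine mem_iUnion.2 ⟨⟨i, fun hpos => ?_⟩, hi⟩
  have h2 : ¬ omegaLim f p ⊆ M (e (e.symm ⟨i, hpos⟩)).1 := hp (e.symm ⟨i, hpos⟩)
  rw [e.apply_symm_apply] at h2
  exact h2 hi

theorem iterate_flow {φ : ℝ → N → N} (hφ : FlowOn N φ) (τ : ℝ) (k : ℕ) (p : N) :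
    (φ τ)^[k] p = φ (k * τ) p := by
  induction k with
  | zero => simp [hφ.zero]
  | succ k ih =>
    rw [Function.iterate_succ_apply', ih, ← hφ.add]
    congr 1
    push_cast
    ring

theorem omegaLim_sub {φ : ℝ → N → N} (hφ : FlowOn N φ) {τ : ℝ} (hτ : 0 < τ) (p : N) :
    omegaLim (φ τ) p ⊆ omegaF φ p := by
  intro q hq U hU T
  obtain ⟨m, hm⟩ := exists_nat_ge (T / τ)
  obtain ⟨k, hk, hk2⟩ := hq U hU m
  rw [iterate_flow hφ] at hk2
  refine ⟨k * τ, ?_, hk2⟩
  have h1 : T / τ ≤ k := hm.trans (by exact_mod_cast hk)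
  rwa [div_le_iff₀ hτ] at h1

variable [T2Space N] [CompactSpace N]

/-- finitely many critical points -/
theorem main_finite {h : N → ℝ} (hh : ContMDiff (𝓡 n) 𝓘(ℝ, ℝ) ∞ h)
    {X : (x : N) → TangentSpace (𝓡 n) x}
    (hX : ContMDiff (𝓡 n) (𝓡 n).tangent 1 (fun x => (⟨x, X x⟩ : TangentBundle (𝓡 n) N)))
    (hmon : ∀ x, 0 ≤ dh n h x (X x)) (hfin : {x | Crit n h x}.Finite) :
    ∃ G : (x : N) → TangentSpace (𝓡 n) x,
      ContMDiff (𝓡 n) (𝓡 n).tangent ∞ (fun x => (⟨x, G x⟩ : TangentBundle (𝓡 n) N)) ∧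
      ∀ s : ℝ, 0 < s → ∃ φ : ℝ → N → N, FlowOn N φ ∧
        (∀ x, IsMIntegralCurve (fun t => φ t x) (fun x => X x + s • G x)) ∧
        (∃ F : Set N, F.Finite ∧ ∀ p, ∃ z ∈ F, omegaF φ p = {z}) ∧
        (∀ (_ : MeasurableSpace N) (μ : Measure N), FiniteAttractorsF μ φ) ∧
        ∀ τ > 0, ∀ (_ : MeasurableSpace N) (μ : Measure N), FiniteAttractors μ (φ τ) := by
  classical
  obtain ⟨ψ, hψ, hψX⟩ := flowOn_of hX
  have hCI : {x | ∀ t, Crit n h (ψ t x)} ⊆ {x | Crit n h x} := by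
    intro x hx
    have := hx 0
    rwa [hψ.zero] at this
  have hcf : {x | ∀ t, Crit n h (ψ t x)}.Finite := hfin.subset hCI
  have hfix : ∀ x, (∀ t, Crit n h (ψ t x)) → ∀ t, ψ t x = x := by
    intro x hx t
    by_contra hne
    have h1 : IsPreconnected (range fun t => ψ t x) :=
      isPreconnected_range (hψ.cont.comp (continuous_id.prodMk continuous_const))
    have h2 : (range fun t => ψ t x).Nontrivial :=
      ⟨ψ t x, ⟨t, rfl⟩, x, ⟨0, hψ.zero x⟩, hne⟩
    refine h1.infinite_of_nontrivial h2 (hfin.subset ?_)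
    rintro _ ⟨t, rfl⟩
    exact hx t
  have := hcf.fintype
  let e : Fin (Fintype.card {x | ∀ t, Crit n h (ψ t x)}) ≃ {x | ∀ t, Crit n h (ψ t x)} :=
    (Fintype.equivFin _).symm
  obtain ⟨G, hG, hG2⟩ := main_pieces hh hX hmon hψ.zero hψX (fun i => {(e i).1})
    (fun i => isClosed_singleton) (fun i t => by rw [image_singleton, hfix _ (e i).2])
    (fun i j hij => disjoint_singleton.2 fun h => hij (e.injective (Subtype.ext h)))
    (fun i x hx => by rw [mem_singleton_iff.1 hx]; exact hCI (e i).2)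
    (fun i => ⟨_, rfl, by
      rintro y rfl
      exact subset_closure ⟨0, le_rfl, (hψ.zero _).symm⟩⟩)
    (fun x hx => mem_iUnion.2 ⟨e.symm ⟨x, hx⟩, by rw [e.apply_symm_apply]; rfl⟩)
  refine ⟨G, hG, fun s hs => ?_⟩
  obtain ⟨φ, hφ, hφY, hω, hfa⟩ := hG2 s hs
  have hω2 : ∀ p, ∃ i, omegaF φ p = {(e i).1} := fun p => by
    obtain ⟨i, hi⟩ := hω p
    exact ⟨i, (subset_singleton_iff_eq.1 hi).resolve_left (omega_nonempty φ p).ne_empty⟩
  refine ⟨φ, hφ, hφY, ⟨_, hcf, fun p => ?_⟩, hfa, fun τ hτ _ μ => ?_⟩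
  · obtain ⟨i, hi⟩ := hω2 p
    exact ⟨_, (e i).2, hi⟩
  · -- the time `τ` map
    let J := {i // ∃ p, omegaF φ p = {(e i).1}}
    let g : Fin (Fintype.card J) ≃ J := (Fintype.equivFin J).symm
    have hfx : ∀ j : J, φ τ (e j.1).1 = (e j.1).1 := by
      rintro ⟨i, p, hp⟩
      have h1 := omega_shift hφ (p := p) (q := (e i).1) (by rw [hp]; rfl) τ
      rw [hp] at h1
      exact h1
    refine finite_of_pieces_map (fun i => {(e (g i).1).1}) (fun i => ?_) (fun i => ?_)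
      (fun p => ?_) μ
    · rw [image_singleton, hfx]
    · refine ⟨_, rfl, ?_⟩
      rintro y rfl
      exact subset_closure ⟨0, rfl⟩
    · obtain ⟨i, hi⟩ := hω2 p
      refine ⟨g.symm ⟨i, p, hi⟩, ?_⟩
      rw [g.apply_symm_apply, ← hi]
      exact omegaLim_sub hφ hτ p

/-- a limit of a family -/
theorem mem_closure_family {r : ℕ∞} {S : Set (Fields n N r)} {X : Fields n N r}
    {G : (x : N) → TangentSpace (𝓡 n) x}
    (hG : ContMDiff (𝓡 n) (𝓡 n).tangent ∞ (fun x => (⟨x, G x⟩ : TangentBundle (𝓡 n) N)))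
    (hS : ∀ s : ℝ, 0 < s → ∀ Y : Fields n N r, (Y.1 = fun x => X.1 x + s • G x) → Y ∈ S) :
    X ∈ closure[crTop n N r] S := by
  let G' : Fields n N r := ⟨G, ContMDiff.of_le hG (by exact_mod_cast le_top)⟩
  have hc : @Continuous ℝ (Fields n N r) _ (crTop n N r)
      (fun s => comb X (fun _ : Unit => G') (fun _ => s)) :=
    @Continuous.comp _ _ _ _ _ (crTop n N r) _ _ (continuous_comb X (fun _ : Unit => G'))
      (continuous_pi fun _ => continuous_id)
  have he : ∀ s : ℝ, (comb X (fun _ : Unit => G') (fun _ => s)).1 = fun x => X.1 x + s • G x := by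
    intro s
    funext x
    simp [comb, G']
  have h0 : comb X (fun _ : Unit => G') (fun _ => (0 : ℝ)) = X := by
    apply Subtype.ext
    rw [he]
    funext x
    rw [zero_smul, add_zero]
  have h1 : (0 : ℝ) ∈ closure (Ioi (0 : ℝ)) := by
    rw [closure_Ioi]
    exact self_mem_Ici
  have h2 : comb X (fun _ : Unit => G') (fun _ => (0 : ℝ)) ∈
      closure[crTop n N r] ((fun s => comb X (fun _ : Unit => G') (fun _ => s)) '' Ioi (0 : ℝ)) :=
    @image_closure_subset_closure_image _ _ _ (crTop n N r) _ _ hc _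
      (mem_image_of_mem _ h1)
  rw [h0] at h2
  refine @closure_mono _ (crTop n N r) _ _ ?_ _ h2
  rintro _ ⟨s, hs, rfl⟩
  exact hS s hs _ (he s)

/-- the fields whose flow has finitely many attractors, all orbits converging to one of finitely
many equilibria -/
def Conv (n : ℕ) (N : Type u) [TopologicalSpace N]
    [ChartedSpace (EuclideanSpace ℝ (Fin n)) N] [IsManifold (𝓡 n) ∞ N] (r : ℕ∞) :
    Set (Fields n N r) :=
  {Y | ∃ φ : ℝ → N → N, IsFlowOf φ Y.1 ∧
    (∃ F : Set N, F.Finite ∧ ∀ p, ∃ z ∈ F, omegaF φ p = {z}) ∧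
    (∀ (_ : MeasurableSpace N) (μ : Measure N), FiniteAttractorsF μ φ) ∧
    ∀ τ > 0, ∀ (_ : MeasurableSpace N) (μ : Measure N), FiniteAttractors μ (φ τ)}

theorem conv_of_finite {r : ℕ∞} (hr : 1 ≤ r) {h : N → ℝ} (hh : ContMDiff (𝓡 n) 𝓘(ℝ, ℝ) ∞ h)
    (X : Fields n N r) (hmon : ∀ x, 0 ≤ dh n h x (X.1 x)) (hfin : {x | Crit n h x}.Finite) :
    X ∈ closure[crTop n N r] (Conv n N r) := by
  obtain ⟨G, hG, hG2⟩ := main_finite hh (ContMDiff.of_le (m := 1) X.2 (by exact_mod_cast hr)) hmon hfin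
  refine mem_closure_family hG fun s hs Y hY => ?_
  obtain ⟨φ, h1, h2, h3⟩ := hG2 s hs
  refine ⟨φ, ⟨h1, ?_⟩, h3⟩
  rw [hY]
  exact h2

end Pool.Agent.U1.VF
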