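import Mathlib
import Pool.Agent.Helper186.LocalFlow

/-! Flows of `C^1` vector fields on closed manifolds. The proofs are those of
`Pool/Agent/Helper186/Flow.lean` (smooth fields), for `C^1` fields. -/

set_option autoImplicit false

open scoped Topology ContDiff Manifold
open Set Metric

noncomputable section

namespace Pool.Agent.U1.VF

open Pool.Agent.Helper186

universe u

variable {E : Type u} [NormedAddCommGroup E] [NormedSpace ℝ E] [FiniteDimensional ℝ E]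
  {H : Type*} [TopologicalSpace H] {I : ModelWithCorners ℝ E H} [I.Boundaryless]
  {M : Type*} [TopologicalSpace M] [ChartedSpace H M] [IsManifold I ∞ M]
  {V : (x : M) → TangentSpace I x}

set_option linter.unusedSectionVars false

set_option backward.isDefEq.respectTransparency false in
/-- Transporting a solution of the ODE in a chart to the manifold. -/
lemma hasMFDerivAt_of_chart [IsManifold I 1 M] (x₀ : M) (f : ℝ → E) (t : ℝ)
    (hft : f t ∈ (extChartAt I x₀).target)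
    (h : HasDerivAt f (tangentCoordChange I ((extChartAt I x₀).symm (f t)) x₀
      ((extChartAt I x₀).symm (f t)) (V ((extChartAt I x₀).symm (f t)))) t) :
    HasMFDerivAt 𝓘(ℝ, ℝ) I ((extChartAt I x₀).symm ∘ f) t
      ((1 : ℝ →L[ℝ] ℝ).smulRight (V ((extChartAt I x₀).symm (f t)))) := by
  let xₜ : M := (extChartAt I x₀).symm (f t)
  have hf3' := hft
  have hf3 : f t ∈ interior (extChartAt I x₀).target := by
    rw [(isOpen_extChartAt_target x₀).interior_eq]; exact hft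
  have hft1 := mem_preimage.mp <|
    mem_of_mem_of_subset hf3' (extChartAt I x₀).target_subset_preimage_source
  have hft2 := mem_extChartAt_source (I := I) xₜ
  refine ⟨(continuousAt_extChartAt_symm'' hf3').comp h.continuousAt,
    HasDerivWithinAt.hasFDerivWithinAt ?_⟩
  simp only [mfld_simps, hasDerivWithinAt_univ]
  change HasDerivAt ((extChartAt I xₜ ∘ (extChartAt I x₀).symm) ∘ f) (V xₜ) t
  rw [← tangentCoordChange_self (I := I) (x := xₜ) (z := xₜ) (v := V xₜ) hft2,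
    ← tangentCoordChange_comp (x := x₀) ⟨⟨hft2, hft1⟩, hft2⟩]
  apply HasFDerivAt.comp_hasDerivAt _ _ h
  apply HasFDerivWithinAt.hasFDerivAt (s := range I) _ <|
    mem_nhds_iff.mpr ⟨interior (extChartAt I x₀).target,
      subset_trans interior_subset (extChartAt_target_subset_range ..),
      isOpen_interior, hf3⟩
  rw [← (extChartAt I x₀).right_inv hf3']
  exact hasFDerivWithinAt_tangentCoordChange ⟨hft1, hft2⟩

/-- Local smooth flows on manifolds. -/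
theorem exists_local_flow_manifold [IsManifold I 1 M]
    (hV : ContMDiff I I.tangent 1 (fun x => (⟨x, V x⟩ : TangentBundle I M)))
    (x₀ : M) :
    ∃ U ∈ 𝓝 x₀, ∃ ε > (0 : ℝ), ∃ a : M → ℝ → M, (∀ x ∈ U, a x 0 = x) ∧
      (∀ x ∈ U, IsMIntegralCurveOn (a x) V (Ioo (-ε) ε)) ∧
      ContMDiffAt (I.prod 𝓘(ℝ, ℝ)) I ((1 : ℕ) : ℕ∞ω) (fun p : M × ℝ => a p.1 p.2) (x₀, 0) := by
  have hn : (1 : ℕ) ≠ 0 := one_ne_zero
  have hv := (hV x₀).of_le (m := ((1 : ℕ) : ℕ∞ω)) (by simp)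
  rw [contMDiffAt_iff] at hv
  obtain ⟨_, hv⟩ := hv
  have hv2 := (hv.contDiffAt (range_mem_nhds_isInteriorPoint
    (BoundarylessManifold.isInteriorPoint (x := x₀)))).snd
  obtain ⟨r, hr, ε, hε, α, hα0, hαd, hαc⟩ := exists_local_flow hn hv2
  set φ := extChartAt I x₀ with hφ
  have hαx : α (φ x₀, 0) = φ x₀ := hα0 _ (mem_closedBall_self hr.le)
  have htgt : φ.target ∈ 𝓝 (φ x₀) := extChartAt_target_mem_nhds x₀
  have h1 : ∀ᶠ q in 𝓝 ((φ x₀, 0) : E × ℝ), α q ∈ φ.target := by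
    have h2 : ∀ᶠ z in 𝓝 (α (φ x₀, 0)), z ∈ φ.target := by rw [hαx]; exact htgt
    exact hαc.continuousAt.eventually h2
  obtain ⟨η, hη, hη'⟩ := Metric.eventually_nhds_iff.1 h1
  refine ⟨φ.source ∩ φ ⁻¹' (closedBall (φ x₀) (min r (η / 2))), ?_, min ε η, by positivity,
    fun x t => φ.symm (α (φ x, t)), ?_, ?_, ?_⟩
  · apply Filter.inter_mem (extChartAt_source_mem_nhds x₀)
    exact (continuousAt_extChartAt x₀).preimage_mem_nhds
      (closedBall_mem_nhds _ (by positivity))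
  · rintro x ⟨hx1, hx2⟩
    have : α (φ x, 0) = φ x :=
      hα0 _ (closedBall_subset_closedBall (min_le_left _ _) hx2)
    simp only [this]
    exact φ.left_inv hx1
  · rintro x ⟨hx1, hx2⟩ t ht
    have ht' : t ∈ Ioo (-ε) ε :=
      ⟨by linarith [ht.1, min_le_left ε η], by linarith [ht.2, min_le_left ε η]⟩
    have hd := hαd (φ x) (closedBall_subset_closedBall (min_le_left _ _) hx2) t ht'
    have hmem : α (φ x, t) ∈ φ.target := by
      apply hη'
      rw [Prod.dist_eq]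
      apply max_lt
      · have := (mem_closedBall.1 hx2).trans (min_le_right _ _)
        exact lt_of_le_of_lt this (by linarith)
      · simp only [dist_zero_right, Real.norm_eq_abs]
        rw [abs_lt]
        constructor
        · linarith [ht.1, min_le_right ε η]
        · linarith [ht.2, min_le_right ε η]
    exact (hasMFDerivAt_of_chart (V := V) x₀ (fun s => α (φ x, s)) t hmem hd).hasMFDerivWithinAt
  · have h3 : ContMDiffAt (I.prod 𝓘(ℝ, ℝ)) 𝓘(ℝ, E × ℝ) ((1 : ℕ) : ℕ∞ω)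
        (fun p : M × ℝ => (φ p.1, p.2)) (x₀, 0) := by
      apply ContMDiffAt.prodMk_space
      · exact (contMDiffAt_extChartAt (x := x₀)).comp (x₀, (0:ℝ)) contMDiffAt_fst
      · exact contMDiffAt_snd
    have h4 : ContMDiffAt (I.prod 𝓘(ℝ, ℝ)) 𝓘(ℝ, E) ((1 : ℕ) : ℕ∞ω)
        (fun p : M × ℝ => α (φ p.1, p.2)) (x₀, 0) :=
      ContMDiffAt.comp (x₀, (0:ℝ)) hαc.contMDiffAt h3
    have h5 : ContMDiffAt 𝓘(ℝ, E) I ((1 : ℕ) : ℕ∞ω) φ.symm (α (φ x₀, 0)) := by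
      rw [hαx]
      exact (contMDiffOn_extChartAt_symm x₀).contMDiffAt htgt
    exact ContMDiffAt.comp (x₀, (0:ℝ)) h5 h4

/-- The group property of a complete flow. -/
lemma flow_add [T2Space M] [IsManifold I 1 M]
    (hV : ContMDiff I I.tangent 1 (fun x => (⟨x, V x⟩ : TangentBundle I M)))
    {Fl : M → ℝ → M} (h0 : ∀ x, Fl x 0 = x) (hFl : ∀ x, IsMIntegralCurve (Fl x) V)
    (x : M) (s t : ℝ) : Fl x (s + t) = Fl (Fl x s) t := by
  have h1 : IsMIntegralCurve (fun t => Fl x (s + t)) V := by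
    have := (hFl x).comp_add s
    convert this using 2
    simp [Function.comp, add_comm]
  have h2 := hFl (Fl x s)
  have h3 : (fun t => Fl x (s + t)) = Fl (Fl x s) := by
    refine isMIntegralCurve_Ioo_eq_of_contMDiff_boundaryless (t₀ := 0)
      hV h1 h2 ?_
    simp [h0]
  exact congrFun h3 t

/-- A complete flow is smooth at time zero. -/
lemma contMDiffAt_flow_zero [T2Space M] [IsManifold I 1 M]
    (hV : ContMDiff I I.tangent 1 (fun x => (⟨x, V x⟩ : TangentBundle I M)))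
    {Fl : M → ℝ → M} (h0 : ∀ x, Fl x 0 = x) (hFl : ∀ x, IsMIntegralCurve (Fl x) V)
    (x₀ : M) :
    ContMDiffAt (I.prod 𝓘(ℝ, ℝ)) I ((1 : ℕ) : ℕ∞ω) (fun p : M × ℝ => Fl p.1 p.2) (x₀, 0) := by
  obtain ⟨U, hU, ε, hε, a, ha0, had, hac⟩ := exists_local_flow_manifold hV x₀
  refine hac.congr_of_eventuallyEq ?_
  have : U ×ˢ Ioo (-ε) ε ∈ 𝓝 (x₀, (0:ℝ)) := prod_mem_nhds hU (Ioo_mem_nhds (by simpa using hε) hε)
  filter_upwards [this] with p hp
  refine isMIntegralCurveOn_Ioo_eqOn_of_contMDiff_boundaryless (t₀ := 0)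
      (show (0:ℝ) ∈ Ioo (-ε) ε from ⟨by simpa using hε, hε⟩) hV
      ((hFl p.1).isMIntegralCurveOn _) (had p.1 hp.1) ?_ hp.2
  rw [h0, ha0 _ hp.1]

/-- **Smoothness of complete flows.** -/
theorem contMDiff_flow [T2Space M] [IsManifold I 1 M]
    (hV : ContMDiff I I.tangent 1 (fun x => (⟨x, V x⟩ : TangentBundle I M)))
    {Fl : M → ℝ → M} (h0 : ∀ x, Fl x 0 = x) (hFl : ∀ x, IsMIntegralCurve (Fl x) V) :
    ContMDiff (I.prod 𝓘(ℝ, ℝ)) I ((1 : ℕ) : ℕ∞ω) (fun p : M × ℝ => Fl p.1 p.2) := by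
  rintro ⟨x₀, t⟩
  set A : Set ℝ := {t | ContMDiffAt (I.prod 𝓘(ℝ, ℝ)) I ((1 : ℕ) : ℕ∞ω)
    (fun p : M × ℝ => Fl p.1 p.2) (x₀, t)}
    with hA
  -- local propagation
  have hloc : ∀ t₀ : ℝ, ∃ δ > (0:ℝ), ∀ t₁ ∈ ball t₀ δ, ∀ t₂ ∈ ball t₀ δ, t₁ ∈ A → t₂ ∈ A := by
    intro t₀
    have hz := contMDiffAt_flow_zero hV h0 hFl (Fl x₀ t₀)
    have : IsManifold I ((1 : ℕ) : ℕ∞ω) M := IsManifold.of_le (n := ∞) (by simp)
    have hz2 := (contMDiffAt_iff_contMDiffAt_nhds (by simp)).1 hz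
    rw [nhds_prod_eq, Filter.eventually_prod_iff] at hz2
    obtain ⟨P, hP, Q, hQ, hPQ⟩ := hz2
    obtain ⟨δ₁, hδ₁, hδ₁'⟩ := Metric.eventually_nhds_iff.1 hQ
    have hc : Continuous (Fl x₀) := (hFl x₀).continuous
    obtain ⟨δ₂, hδ₂, hδ₂'⟩ := Metric.eventually_nhds_iff.1 (hc.continuousAt.eventually hP)
    refine ⟨min (δ₁ / 2) δ₂, by positivity, ?_⟩
    intro t₁ ht₁ t₂ ht₂ h
    have e1 : (fun p : M × ℝ => Fl p.1 p.2) =
        (fun q : M × ℝ => Fl q.1 q.2) ∘ (fun p : M × ℝ => (Fl p.1 t₁, p.2 - t₁)) := by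
      ext p
      simp only [Function.comp]
      rw [← flow_add hV h0 hFl]
      congr 1; ring
    show ContMDiffAt (I.prod 𝓘(ℝ, ℝ)) I ((1 : ℕ) : ℕ∞ω) (fun p : M × ℝ => Fl p.1 p.2) (x₀, t₂)
    rw [e1]
    have hP1 : P (Fl x₀ t₁) := hδ₂' (lt_of_lt_of_le (mem_ball.1 ht₁) (min_le_right _ _))
    have hQ1 : Q (t₂ - t₁) := by
      apply hδ₁'
      have a1 := lt_of_lt_of_le (mem_ball.1 ht₁) (min_le_left _ _)
      have a2 := lt_of_lt_of_le (mem_ball.1 ht₂) (min_le_left _ _)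
      rw [Real.dist_eq] at *
      rw [abs_lt] at *
      constructor <;> linarith
    refine ContMDiffAt.comp (x₀, t₂) (hPQ hP1 hQ1) ?_
    apply ContMDiffAt.prodMk
    · have h' : ContMDiffAt (I.prod 𝓘(ℝ, ℝ)) I ((1 : ℕ) : ℕ∞ω) (fun p : M × ℝ => Fl p.1 p.2) (x₀, t₁) := h
      have : (fun p : M × ℝ => Fl p.1 t₁) =
        (fun q : M × ℝ => Fl q.1 q.2) ∘ (fun p : M × ℝ => (p.1, t₁)) := rfl
      rw [this]
      exact ContMDiffAt.comp (x₀, t₂) h' (contMDiffAt_fst.prodMk contMDiffAt_const)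
    · exact contMDiffAt_snd.sub contMDiffAt_const
  have hclopen : IsClopen A := by
    constructor
    · rw [← isOpen_compl_iff, Metric.isOpen_iff]
      intro t₀ ht₀
      obtain ⟨δ, hδ, hδ'⟩ := hloc t₀
      exact ⟨δ, hδ, fun t₁ ht₁ hmem => ht₀ (hδ' t₁ ht₁ t₀ (mem_ball_self hδ) hmem)⟩
    · rw [Metric.isOpen_iff]
      intro t₀ ht₀
      obtain ⟨δ, hδ, hδ'⟩ := hloc t₀
      exact ⟨δ, hδ, fun t₁ ht₁ => hδ' t₀ (mem_ball_self hδ) t₁ ht₁ ht₀⟩
  have h0A : (0:ℝ) ∈ A := contMDiffAt_flow_zero hV h0 hFl x₀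
  have : A = univ := hclopen.eq_univ ⟨0, h0A⟩
  have : t ∈ A := this ▸ mem_univ t
  exact this

/-- Completeness on compact manifolds. -/
theorem exists_flow [T2Space M] [CompactSpace M] [IsManifold I 1 M]
    (hV : ContMDiff I I.tangent 1 (fun x => (⟨x, V x⟩ : TangentBundle I M))) :
    ∃ Fl : M → ℝ → M, (∀ x, Fl x 0 = x) ∧ ∀ x, IsMIntegralCurve (Fl x) V := by
  obtain ⟨ε, hε, h⟩ : ∃ ε > (0:ℝ), ∀ x ∈ (univ : Set M), ∃ γ : ℝ → M, γ 0 = x ∧
      IsMIntegralCurveOn γ V (Ioo (-ε) ε) := by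
    refine isCompact_univ.induction_on (p := fun S => ∃ ε > (0:ℝ), ∀ x ∈ S, ∃ γ : ℝ → M, γ 0 = x ∧
      IsMIntegralCurveOn γ V (Ioo (-ε) ε)) ⟨1, one_pos, by simp⟩ ?_ ?_ ?_
    · rintro s t hst ⟨ε, hε, h⟩
      exact ⟨ε, hε, fun x hx => h x (hst hx)⟩
    · rintro s t ⟨ε₁, hε₁, h₁⟩ ⟨ε₂, hε₂, h₂⟩
      refine ⟨min ε₁ ε₂, by positivity, ?_⟩
      rintro x (hx | hx)
      · obtain ⟨γ, h0, hγ⟩ := h₁ x hx
        exact ⟨γ, h0, hγ.mono (Ioo_subset_Ioo (neg_le_neg (min_le_left _ _)) (min_le_left _ _))⟩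
      · obtain ⟨γ, h0, hγ⟩ := h₂ x hx
        exact ⟨γ, h0, hγ.mono (Ioo_subset_Ioo (neg_le_neg (min_le_right _ _)) (min_le_right _ _))⟩
    · intro x _
      obtain ⟨U, hU, ε, hε, a, ha0, had, -⟩ := exists_local_flow_manifold hV x
      exact ⟨U, mem_nhdsWithin_of_mem_nhds hU, ε, hε, fun y hy => ⟨a y, ha0 y hy, had y hy⟩⟩
  choose Fl h0 hFl using fun x => exists_isMIntegralCurve_of_isMIntegralCurveOn hV hε
    (fun x => h x (mem_univ x)) x
  exact ⟨Fl, h0, hFl⟩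

end Pool.Agent.U1.VF
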