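import Pool.Agent.U1.VF.Dyn

/-! Finitely many attractors near fields along which a function does not decrease. -/

set_option autoImplicit false

open scoped Manifold ContDiff Topology Bundle
open Set Filter MeasureTheory

universe u

namespace Pool.Agent.U1.VF


variable {n : ℕ} {N : Type u} [TopologicalSpace N]
  [ChartedSpace (EuclideanSpace ℝ (Fin n)) N] [IsManifold (𝓡 n) ∞ N]

set_option linter.unusedSectionVars false


theorem add_smul_contMDiff {X G : (x : N) → TangentSpace (𝓡 n) x} {r : ℕ∞ω}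
    (hX : ContMDiff (𝓡 n) (𝓡 n).tangent r (fun x => (⟨x, X x⟩ : TangentBundle (𝓡 n) N)))
    (hG : ContMDiff (𝓡 n) (𝓡 n).tangent r (fun x => (⟨x, G x⟩ : TangentBundle (𝓡 n) N)))
    (s : ℝ) :
    ContMDiff (𝓡 n) (𝓡 n).tangent r
      (fun x => (⟨x, X x + s • G x⟩ : TangentBundle (𝓡 n) N)) := by
  have h1 := ContMDiff.const_smul_section (a := s) hG
  exact ContMDiff.add_section hX h1

theorem flowOn_of [T2Space N] [CompactSpace N] {Y : (x : N) → TangentSpace (𝓡 n) x}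
    (hY : ContMDiff (𝓡 n) (𝓡 n).tangent 1 (fun x => (⟨x, Y x⟩ : TangentBundle (𝓡 n) N))) :
    ∃ φ : ℝ → N → N, FlowOn N φ ∧ ∀ x, IsMIntegralCurve (fun t => φ t x) Y := by
  have : IsManifold (𝓡 n) 1 N := IsManifold.of_le (n := ∞) (by simp)
  obtain ⟨Fl, h0, hFl⟩ := exists_flow hY
  refine ⟨fun t x => Fl x t, ⟨?_, h0, ?_⟩, hFl⟩
  · have h1 := (contMDiff_flow hY h0 hFl).continuous
    exact h1.comp (continuous_snd.prodMk continuous_fst)
  · intro s t y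
    rw [add_comm]
    exact flow_add hY h0 hFl y t s

/-- the theorem with prescribed pieces -/
theorem main_pieces [T2Space N] [CompactSpace N] {h : N → ℝ}
    (hh : ContMDiff (𝓡 n) 𝓘(ℝ, ℝ) ∞ h)
    {X : (x : N) → TangentSpace (𝓡 n) x}
    (hX : ContMDiff (𝓡 n) (𝓡 n).tangent 1 (fun x => (⟨x, X x⟩ : TangentBundle (𝓡 n) N)))
    (hmon : ∀ x, 0 ≤ dh n h x (X x))
    {ψ : ℝ → N → N} (hψ : ∀ x, ψ 0 x = x) (hψX : ∀ x, IsMIntegralCurve (fun t => ψ t x) X)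
    {m : ℕ} (M : Fin m → Set N) (hcl : ∀ i, IsClosed (M i))
    (hinv : ∀ i t, ψ t '' M i = M i) (hdis : ∀ i j, i ≠ j → Disjoint (M i) (M j))
    (hC : ∀ i, ∀ x ∈ M i, Crit n h x)
    (htr : ∀ i, ∃ x ∈ M i, M i ⊆ closure {y | ∃ t : ℝ, 0 ≤ t ∧ y = ψ t x})
    (hcov : {x | ∀ t, Crit n h (ψ t x)} ⊆ ⋃ i, M i) :
    ∃ G : (x : N) → TangentSpace (𝓡 n) x,
      ContMDiff (𝓡 n) (𝓡 n).tangent ∞ (fun x => (⟨x, G x⟩ : TangentBundle (𝓡 n) N)) ∧
      ∀ s : ℝ, 0 < s → ∃ φ : ℝ → N → N, FlowOn N φ ∧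
        (∀ x, IsMIntegralCurve (fun t => φ t x) (fun x => X x + s • G x)) ∧
        (∀ p, ∃ i, omegaF φ p ⊆ M i) ∧
        ∀ (_ : MeasurableSpace N) (μ : Measure N), FiniteAttractorsF μ φ := by
  obtain ⟨G, hG, hG2⟩ := exists_grad (n := n) hh
  refine ⟨G, hG, fun s hs => ?_⟩
  have hY := add_smul_contMDiff hX (hG.of_le (m := 1) (by simp)) s
  obtain ⟨φ, hφ, hφY⟩ := flowOn_of hY
  refine ⟨φ, hφ, hφY, ?_⟩
  refine main_dyn hh hY hX (fun x hx => ?_) (fun x hx => ?_) hφ hφY hψ hψX M hcl hinv hdis hC htr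
    hcov
  · have e1 : dh n h x (X x + s • G x) = dh n h x (X x) + s * dh n h x (G x) := by
      unfold dh
      rw [map_add, map_smul]
      rfl
    rw [e1]
    exact add_pos_of_nonneg_of_pos (hmon x) (mul_pos hs ((hG2 x).2 hx))
  · rw [(hG2 x).1 hx, smul_zero, add_zero]

end Pool.Agent.U1.VF
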