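import Pool.Agent.U1.VF.Param
import Pool.Agent.TH80.CLX.Fam

/-! Time `τ` maps. -/

set_option autoImplicit false

open scoped Manifold ContDiff Topology Bundle
open Set Filter MeasureTheory

universe u

namespace Pool.Agent.U1.VF

open Pool.Agent.H718R2.G (DiffM strongTop)
open Pool.Agent.W564.SC (IsFam)
open Pool.Agent.TH80.CLX (fam_mem)

set_option linter.unusedSectionVars false

variable {n : ℕ} {N : Type u} [TopologicalSpace N]
  [ChartedSpace (EuclideanSpace ℝ (Fin n)) N] [IsManifold (𝓡 n) ∞ N]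

/-- the `C^r` diffeomorphisms with finitely many attractors covering `N`, for every measure, all of
whose `ω`-limit sets are single points of one finite set -/
def ConvMaps (n : ℕ) (N : Type u) [TopologicalSpace N]
    [ChartedSpace (EuclideanSpace ℝ (Fin n)) N] (r : ℕ∞) : Set (DiffM n N r) :=
  {G | (∃ F : Set N, F.Finite ∧ ∀ p, ∃ z ∈ F, omegaLim G p = {z}) ∧
    ∀ (_ : MeasurableSpace N) (μ : Measure N), FiniteAttractors μ G}

variable [T2Space N] [CompactSpace N]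

theorem flow_unique {X : (x : N) → TangentSpace (𝓡 n) x}
    (hX : ContMDiff (𝓡 n) (𝓡 n).tangent 1 (fun x => (⟨x, X x⟩ : TangentBundle (𝓡 n) N)))
    {φ ψ : ℝ → N → N} (hφ : IsFlowOf φ X) (hψ : IsFlowOf ψ X) : φ = ψ := by
  funext t x
  have h1 : (fun t => φ t x) = fun t => ψ t x :=
    orbit_eq hX (by rw [hφ.1.zero, hψ.1.zero]) (hφ.2 x) (hψ.2 x) fun _ => rfl
  exact congrFun h1 t

theorem omegaLim_nonempty (f : N → N) (p : N) : (omegaLim f p).Nonempty := by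
  obtain ⟨u, hu⟩ := Ultrafilter.exists_le (atTop : Filter ℕ)
  obtain ⟨y, -, hy⟩ := isCompact_univ.ultrafilter_le_nhds (u.map fun k => f^[k] p) (by simp)
  refine ⟨y, fun U hU m => ?_⟩
  have h1 : ∀ᶠ k in (u : Filter ℕ), f^[k] p ∈ U := hy hU
  have h2 : ∀ᶠ k in (u : Filter ℕ), m ≤ k := hu (eventually_ge_atTop m)
  obtain ⟨k, hk1, hk2⟩ := (h1.and h2).exists
  exact ⟨k, hk2, hk1⟩

/-- families of time `τ` maps -/
theorem diffeo_family {ι : Type} [Fintype ι] {X : (x : N) → TangentSpace (𝓡 n) x}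
    {Z : ι → (x : N) → TangentSpace (𝓡 n) x}
    (hX : ContMDiff (𝓡 n) (𝓡 n).tangent ∞ (fun x => (⟨x, X x⟩ : TangentBundle (𝓡 n) N)))
    (hZ : ∀ j, ContMDiff (𝓡 n) (𝓡 n).tangent ∞
      (fun x => (⟨x, Z j x⟩ : TangentBundle (𝓡 n) N))) (τ : ℝ) (r : ℕ∞) :
    ∃ (Φ : (ι → ℝ) → ℝ → N → N) (H : (ι → ℝ) → DiffM n N r),
      (∀ a, IsFlowOf (Φ a) (fun x => X x + ∑ j, a j • Z j x)) ∧ (∀ a x, H a x = Φ a τ x) ∧
      IsFam n N r H := by
  obtain ⟨Φ, hΦ, hs⟩ := param_flow hX hZ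
  have h1 : ∀ (a : ι → ℝ) (t : ℝ), ContMDiff (𝓡 n) (𝓡 n) r (Φ a t) := by
    intro a t
    have h2 := hs.comp (((contMDiff_const (c := a)).prodMk (contMDiff_id (M := N) (I := 𝓡 n))).prodMk
      (contMDiff_const (c := t)))
    exact ContMDiff.of_le h2 (by exact_mod_cast le_top)
  let H : (ι → ℝ) → DiffM n N r := fun a =>
    { toFun := Φ a τ
      invFun := Φ a (-τ)
      left_inv := fun x => by
        rw [← (hΦ a).1.add, neg_add_cancel, (hΦ a).1.zero]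
      right_inv := fun x => by
        rw [← (hΦ a).1.add, add_neg_cancel, (hΦ a).1.zero]
      contMDiff_toFun := h1 a τ
      contMDiff_invFun := h1 a (-τ) }
  refine ⟨Φ, H, hΦ, fun a x => rfl, fun y => ?_⟩
  have h2 := hs.comp ((contMDiff_id (M := (ι → ℝ) × N) (I := 𝓘(ℝ, ι → ℝ).prod (𝓡 n))).prodMk
    (contMDiff_const (c := τ)))
  exact (ContMDiff.of_le h2 (by exact_mod_cast le_top)).contMDiffAt

theorem maps_closure {r : ℕ∞} (hr : 1 ≤ r) (B : DissOp n N ⊤) {h : N → ℝ}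
    (hh : Smooth n h) {ψ : ℝ → N → N} (hψ : IsFlowOf ψ (B.A h)) {τ : ℝ} (hτ : 0 < τ)
    (F : DiffM n N r) (hF : ∀ x, F x = ψ τ x) :
    F ∈ closure[strongTop n N r] (ConvMaps n N r) := by
  rcases isEmpty_or_nonempty N with hN | ⟨⟨z₀⟩⟩
  · refine @subset_closure _ (strongTop n N r) _ _ ⟨⟨∅, finite_empty, fun p => (hN.false p).elim⟩,
      fun _ μ => ⟨0, Fin.elim0, fun i => i.elim0, ?_⟩⟩
    rw [Set.eq_empty_of_isEmpty {p : N | ∀ i : Fin 0, ¬ omegaLim F p ⊆ Fin.elim0 i}]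
    exact measure_empty
  refine (@mem_closure_iff _ (strongTop n N r) _ _).2 fun U hU hFU => ?_
  obtain ⟨ι, _, f, hf, hgen⟩ := exists_generic n N
  obtain ⟨D, -, hDd, hD⟩ := hgen h hh
  have hsm : ∀ g : N → ℝ, Smooth n g → ContMDiff (𝓡 n) (𝓡 n).tangent ∞
      (fun x => (⟨x, B.A g x⟩ : TangentBundle (𝓡 n) N)) := fun g hg => B.smooth g hg
  obtain ⟨Φ, H, hΦ, hH, hfam⟩ := diffeo_family (hsm h hh) (fun j => hsm (f j) (hf j)) τ r
  have hX0 : (fun x => B.A h x + ∑ j, (0 : ι → ℝ) j • B.A (f j) x) = B.A h := by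
    funext x
    simp
  have hH0 : H 0 = F := by
    have h1 := hΦ 0
    rw [hX0] at h1
    have h2 := flow_unique ((hsm h hh).of_le (m := 1) (by simp)) h1 hψ
    ext x
    rw [hH, hF, h2]
  obtain ⟨κ, hκ, hκ2⟩ := fam_mem r hr H hfam z₀ U hU (by rw [hH0]; exact hFU)
  obtain ⟨a, ha1, ha2⟩ := hDd.inter_open_nonempty (Metric.ball 0 κ) Metric.isOpen_ball
    ⟨0, Metric.mem_ball_self hκ⟩
  have hHa : H a ∈ U := hκ2 a (by simpa using ha1)
  -- the field `X_a`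
  have hXa : ContMDiff (𝓡 n) (𝓡 n).tangent ∞ (fun x =>
      (⟨x, B.A h x + ∑ j, a j • B.A (f j) x⟩ : TangentBundle (𝓡 n) N)) := by
    have h2 : ContMDiff (𝓡 n) (𝓡 n).tangent ∞
        (fun x => (⟨x, ∑ j, a j • B.A (f j) x⟩ : TangentBundle (𝓡 n) N)) :=
      ContMDiff.sum_section fun j _ => ContMDiff.const_smul_section (a := a j) (hsm _ (hf j))
    exact ContMDiff.add_section (hsm h hh) h2
  obtain ⟨G, hG, hG2⟩ := main_finite (smooth_comb hh hf a) (hXa.of_le (m := 1) (by simp))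
    (fun x => by
      rw [← op_comb B hh hf a x]
      exact B.nonneg _ (smooth_comb hh hf a) x) (hD a ha2)
  obtain ⟨Φ', H', hΦ', hH', hfam'⟩ := diffeo_family (ι := Unit) (Z := fun _ => G) hXa
    (fun _ => hG) τ r
  have hsum : ∀ s : ℝ, (fun x => (B.A h x + ∑ j, a j • B.A (f j) x) +
      ∑ j : Unit, (fun _ : Unit => s) j • G x) =
      fun x => (B.A h x + ∑ j, a j • B.A (f j) x) + s • G x := by
    intro s
    funext x
    simp
  have hH0' : H' 0 = H a := by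
    have h1 : IsFlowOf (Φ' 0) (fun x => (B.A h x + ∑ j, a j • B.A (f j) x) +
      ∑ j : Unit, (fun _ : Unit => (0 : ℝ)) j • G x) := hΦ' 0
    rw [hsum 0] at h1
    simp only [zero_smul, add_zero] at h1
    have h2 := flow_unique (hXa.of_le (m := 1) (by simp)) h1 (hΦ a)
    ext x
    rw [hH, hH', h2]
  obtain ⟨κ', hκ', hκ2'⟩ := fam_mem r hr H' hfam' z₀ U hU (by rw [hH0']; exact hHa)
  have hs : 0 < κ' / 2 := by positivity
  have hmem : H' (fun _ => κ' / 2) ∈ U := by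
    refine hκ2' _ ?_
    rw [pi_norm_const, Real.norm_eq_abs, abs_of_pos hs]
    linarith
  obtain ⟨φ, h1, h2, ⟨Fs, hFs, hFs2⟩, -, h5⟩ := hG2 (κ' / 2) hs
  have h6 := hΦ' (fun _ => κ' / 2)
  rw [hsum] at h6
  have h7 := flow_unique (add_smul_contMDiff (hXa.of_le (m := 1) (by simp))
    (hG.of_le (m := 1) (by simp)) (κ' / 2)) h6 ⟨h1, h2⟩
  have h8 : (H' (fun _ => κ' / 2) : N → N) = φ τ := by
    funext x
    rw [hH', h7]
  refine ⟨H' (fun _ => κ' / 2), hmem, ⟨Fs, hFs, fun p => ?_⟩, fun _ μ => ?_⟩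
  · obtain ⟨z, hz, hz2⟩ := hFs2 p
    refine ⟨z, hz, ?_⟩
    rw [h8]
    have h9 := omegaLim_sub h1 hτ p
    rw [hz2] at h9
    exact (subset_singleton_iff_eq.1 h9).resolve_left (omegaLim_nonempty _ p).ne_empty
  · rw [h8]
    exact h5 τ hτ _ μ

end Pool.Agent.U1.VF
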