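import Pool.Agent.U1.VF.Tensor
import Pool.Agent.Helper186.Flow

/-! Flows depending on parameters. -/

set_option autoImplicit false

open scoped Manifold ContDiff Topology Bundle
open Set Filter MeasureTheory

universe u

namespace Pool.Agent.U1.VF

set_option linter.unusedSectionVars false

variable {n : ℕ} {N : Type u} [TopologicalSpace N]
  [ChartedSpace (EuclideanSpace ℝ (Fin n)) N] [IsManifold (𝓡 n) ∞ N]
  {ι : Type} [Fintype ι]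

/-- the field on `P × N` given by a field on `N` -/
def lift (W : (x : N) → TangentSpace (𝓡 n) x) (q : (ι → ℝ) × N) :
    TangentSpace (𝓘(ℝ, ι → ℝ).prod (𝓡 n)) q :=
  ((0 : ι → ℝ), W q.2)

theorem lift_smooth {W : (x : N) → TangentSpace (𝓡 n) x}
    (hW : ContMDiff (𝓡 n) (𝓡 n).tangent ∞ (fun x => (⟨x, W x⟩ : TangentBundle (𝓡 n) N))) :
    ContMDiff (𝓘(ℝ, ι → ℝ).prod (𝓡 n)) (𝓘(ℝ, ι → ℝ).prod (𝓡 n)).tangent ∞
      (fun q => (⟨q, lift (ι := ι) W q⟩ :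
        TangentBundle (𝓘(ℝ, ι → ℝ).prod (𝓡 n)) ((ι → ℝ) × N))) := by
  have h1 : ContMDiff (𝓘(ℝ, ι → ℝ).prod (𝓡 n)) 𝓘(ℝ, ι → ℝ).tangent ∞
      (fun q : (ι → ℝ) × N => (⟨q.1, 0⟩ : TangentBundle 𝓘(ℝ, ι → ℝ) (ι → ℝ))) :=
    (Bundle.contMDiff_zeroSection ℝ (TangentSpace 𝓘(ℝ, ι → ℝ) : (ι → ℝ) → Type _)).comp
      contMDiff_fst
  have h2 : ContMDiff (𝓘(ℝ, ι → ℝ).prod (𝓡 n)) (𝓡 n).tangent ∞
      (fun q : (ι → ℝ) × N => (⟨q.2, W q.2⟩ : TangentBundle (𝓡 n) N)) :=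
    hW.comp contMDiff_snd
  have h3 := (contMDiff_equivTangentBundleProd_symm (I := 𝓘(ℝ, ι → ℝ)) (M := ι → ℝ)
    (I' := 𝓡 n) (M' := N) (n := ∞)).comp (h1.prodMk h2)
  exact h3

/-- the field `X + ∑ a j • Z j` on `P × N` -/
noncomputable def total (X : (x : N) → TangentSpace (𝓡 n) x)
    (Z : ι → (x : N) → TangentSpace (𝓡 n) x) (q : (ι → ℝ) × N) :
    TangentSpace (𝓘(ℝ, ι → ℝ).prod (𝓡 n)) q :=
  lift (ι := ι) X q + ∑ j, q.1 j • lift (ι := ι) (Z j) q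

theorem total_smooth {X : (x : N) → TangentSpace (𝓡 n) x}
    {Z : ι → (x : N) → TangentSpace (𝓡 n) x}
    (hX : ContMDiff (𝓡 n) (𝓡 n).tangent ∞ (fun x => (⟨x, X x⟩ : TangentBundle (𝓡 n) N)))
    (hZ : ∀ j, ContMDiff (𝓡 n) (𝓡 n).tangent ∞
      (fun x => (⟨x, Z j x⟩ : TangentBundle (𝓡 n) N))) :
    ContMDiff (𝓘(ℝ, ι → ℝ).prod (𝓡 n)) (𝓘(ℝ, ι → ℝ).prod (𝓡 n)).tangent ∞
      (fun q => (⟨q, total X Z q⟩ :
        TangentBundle (𝓘(ℝ, ι → ℝ).prod (𝓡 n)) ((ι → ℝ) × N))) := by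
  have h1 : ∀ j, ContMDiff (𝓘(ℝ, ι → ℝ).prod (𝓡 n)) 𝓘(ℝ, ℝ) ∞
      (fun q : (ι → ℝ) × N => q.1 j) := fun j =>
    ((ContinuousLinearMap.proj j : (ι → ℝ) →L[ℝ] ℝ).contMDiff).comp contMDiff_fst
  exact ContMDiff.add_section (lift_smooth hX)
    (ContMDiff.sum_section fun j _ => ContMDiff.smul_section (h1 j) (lift_smooth (hZ j)))

theorem total_fst (X : (x : N) → TangentSpace (𝓡 n) x)
    (Z : ι → (x : N) → TangentSpace (𝓡 n) x) (q : (ι → ℝ) × N) :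
    (show (ι → ℝ) × EuclideanSpace ℝ (Fin n) from total X Z q).1 = 0 := by
  let L : TangentSpace (𝓘(ℝ, ι → ℝ).prod (𝓡 n)) q →L[ℝ] (ι → ℝ) :=
    ContinuousLinearMap.fst ℝ (ι → ℝ) (EuclideanSpace ℝ (Fin n))
  have h1 : L (total X Z q) = 0 := by
    unfold total
    rw [map_add, map_sum]
    have h2 : ∀ W : (x : N) → TangentSpace (𝓡 n) x, L (lift (ι := ι) W q) = 0 := fun W => rfl
    simp only [map_smul, h2, smul_zero, Finset.sum_const_zero, add_zero]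
  exact h1

theorem total_snd (X : (x : N) → TangentSpace (𝓡 n) x)
    (Z : ι → (x : N) → TangentSpace (𝓡 n) x) (q : (ι → ℝ) × N) :
    (show (ι → ℝ) × EuclideanSpace ℝ (Fin n) from total X Z q).2 =
      (X q.2 + ∑ j, q.1 j • Z j q.2 : TangentSpace (𝓡 n) q.2) := by
  let L : TangentSpace (𝓘(ℝ, ι → ℝ).prod (𝓡 n)) q →L[ℝ] TangentSpace (𝓡 n) q.2 :=
    ContinuousLinearMap.snd ℝ (ι → ℝ) (EuclideanSpace ℝ (Fin n))
  have h1 : L (total X Z q) = X q.2 + ∑ j, q.1 j • Z j q.2 := by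
    unfold total
    rw [map_add, map_sum]
    have h2 : ∀ W : (x : N) → TangentSpace (𝓡 n) x, L (lift (ι := ι) W q) = W q.2 := fun W => rfl
    simp only [map_smul, h2]
  exact h1

variable [T2Space N] [CompactSpace N]

/-- **Smooth dependence on parameters.** -/
theorem param_flow {X : (x : N) → TangentSpace (𝓡 n) x}
    {Z : ι → (x : N) → TangentSpace (𝓡 n) x}
    (hX : ContMDiff (𝓡 n) (𝓡 n).tangent ∞ (fun x => (⟨x, X x⟩ : TangentBundle (𝓡 n) N)))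
    (hZ : ∀ j, ContMDiff (𝓡 n) (𝓡 n).tangent ∞
      (fun x => (⟨x, Z j x⟩ : TangentBundle (𝓡 n) N))) :
    ∃ Φ : (ι → ℝ) → ℝ → N → N,
      (∀ a, IsFlowOf (Φ a) (fun x => X x + ∑ j, a j • Z j x)) ∧
      ContMDiff ((𝓘(ℝ, ι → ℝ).prod (𝓡 n)).prod 𝓘(ℝ, ℝ)) (𝓡 n) ∞
        (fun p : ((ι → ℝ) × N) × ℝ => Φ p.1.1 p.2 p.1.2) := by
  have h1 : ∀ a : ι → ℝ, ∃ φ : ℝ → N → N, IsFlowOf φ (fun x => X x + ∑ j, a j • Z j x) := by
    intro a
    have h2 : ContMDiff (𝓡 n) (𝓡 n).tangent ∞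
        (fun x => (⟨x, ∑ j, a j • Z j x⟩ : TangentBundle (𝓡 n) N)) :=
      ContMDiff.sum_section fun j _ => ContMDiff.const_smul_section (a := a j) (hZ j)
    have h3 := ContMDiff.add_section hX h2
    exact flowOn_of (h3.of_le (m := 1) (by simp))
  choose Φ hΦ using h1
  refine ⟨Φ, hΦ, ?_⟩
  have hcurve : ∀ q : (ι → ℝ) × N, IsMIntegralCurve (I := 𝓘(ℝ, ι → ℝ).prod (𝓡 n))
      (fun t => (q.1, Φ q.1 t q.2)) (total X Z) := by
    intro q t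
    have h4 := (hasMFDerivAt_const (I := 𝓘(ℝ, ℝ)) (I' := 𝓘(ℝ, ι → ℝ)) q.1 t).prodMk
      ((hΦ q.1).2 q.2 t)
    refine h4.congr_mfderiv ?_
    refine ContinuousLinearMap.ext fun (s : ℝ) => ?_
    have e1 := total_fst X Z (q.1, Φ q.1 t q.2)
    have e2 := total_snd X Z (q.1, Φ q.1 t q.2)
    refine Prod.ext ?_ ?_
    · show (0 : ι → ℝ) = s •
        (show (ι → ℝ) × EuclideanSpace ℝ (Fin n) from total X Z (q.1, Φ q.1 t q.2)).1
      rw [e1, smul_zero]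
    · show s • (X (Φ q.1 t q.2) + ∑ j, q.1 j • Z j (Φ q.1 t q.2) :
          TangentSpace (𝓡 n) (Φ q.1 t q.2)) = s •
        (show (ι → ℝ) × EuclideanSpace ℝ (Fin n) from total X Z (q.1, Φ q.1 t q.2)).2
      rw [e2]
      rfl
  have : IsManifold (𝓘(ℝ, ι → ℝ).prod (𝓡 n)) 1 ((ι → ℝ) × N) := IsManifold.of_le (n := ∞) (by simp)
  have h5 := Pool.Agent.Helper186.contMDiff_flow (V := total X Z)
    (Fl := fun q t => (q.1, Φ q.1 t q.2)) (total_smooth hX hZ)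
    (fun q => by
      show (q.1, Φ q.1 0 q.2) = q
      rw [(hΦ q.1).1.zero]) hcurve
  exact contMDiff_snd.comp h5

end Pool.Agent.U1.VF
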