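import Pool.Agent.U1.VF.Final

/-! Fields with a monotone function: pieces. -/

set_option autoImplicit false

open scoped Manifold ContDiff Topology Bundle
open Set Filter MeasureTheory

universe u

namespace Pool.Agent.U1.VF

set_option linter.unusedSectionVars false

/-- `M 0, …, M (m - 1)` are pairwise disjoint closed sets of critical points of `h`, invariant and
transitive under the flow `ψ`, which contain all points whose whole orbit consists of critical
points of `h` -/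
structure Pieces (n : ℕ) {N : Type u} [TopologicalSpace N]
    [ChartedSpace (EuclideanSpace ℝ (Fin n)) N] (ψ : ℝ → N → N) (h : N → ℝ) {m : ℕ}
    (M : Fin m → Set N) : Prop where
  closed : ∀ i, IsClosed (M i)
  inv : ∀ i t, ψ t '' M i = M i
  disj : ∀ i j, i ≠ j → Disjoint (M i) (M j)
  crit : ∀ i, ∀ x ∈ M i, Crit n h x
  trans : ∀ i, ∃ x ∈ M i, M i ⊆ closure {y | ∃ t : ℝ, 0 ≤ t ∧ y = ψ t x}
  cover : ∀ x, (∀ t, Crit n h (ψ t x)) → ∃ i, x ∈ M i

/-- the `C^r` fields whose flow has every `ω`-limit set inside one of the `M i` and finitely many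
attractors covering `N`, for every measure on `N` -/
def InPieces (n : ℕ) {N : Type u} [TopologicalSpace N]
    [ChartedSpace (EuclideanSpace ℝ (Fin n)) N] [IsManifold (𝓡 n) ∞ N] (r : ℕ∞) {m : ℕ}
    (M : Fin m → Set N) : Set (Fields n N r) :=
  {Y | ∃ φ : ℝ → N → N, IsFlowOf φ Y.1 ∧ (∀ p, ∃ i, omegaF φ p ⊆ M i) ∧
    ∀ (_ : MeasurableSpace N) (μ : Measure N), FiniteAttractorsF μ φ}

variable {n : ℕ} {N : Type u} [TopologicalSpace N] [T2Space N] [CompactSpace N]
  [ChartedSpace (EuclideanSpace ℝ (Fin n)) N] [IsManifold (𝓡 n) ∞ N]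

theorem pieces_closure {r : ℕ∞} (hr : 1 ≤ r) (X : Fields n N r) {ψ : ℝ → N → N}
    (hψ : IsFlowOf ψ X.1) {h : N → ℝ} (hh : Smooth n h) (hmon : ∀ x, 0 ≤ dh n h x (X.1 x))
    {m : ℕ} {M : Fin m → Set N} (hM : Pieces n ψ h M) :
    X ∈ closure[crTop n N r] (InPieces n r M) := by
  obtain ⟨G, hG, hG2⟩ := main_pieces hh (ContMDiff.of_le (m := 1) X.2 (by exact_mod_cast hr)) hmon
    hψ.1.zero hψ.2 M hM.closed hM.inv hM.disj hM.crit hM.trans
    (fun x hx => mem_iUnion.2 (hM.cover x hx))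
  refine mem_closure_family hG fun s hs Y hY => ?_
  obtain ⟨φ, h1, h2, h3⟩ := hG2 s hs
  refine ⟨φ, ⟨h1, ?_⟩, h3⟩
  rw [hY]
  exact h2

end Pool.Agent.U1.VF
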