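import Pool.Agent.U1.VF.Final

/-! The fields `A(dh)`. -/

set_option autoImplicit false

open scoped Manifold ContDiff Topology Bundle
open Set Filter MeasureTheory

universe u

namespace Pool.Agent.U1.VF


variable {n : ℕ} {N : Type u} [TopologicalSpace N]
  [ChartedSpace (EuclideanSpace ℝ (Fin n)) N] [IsManifold (𝓡 n) ∞ N]

set_option linter.unusedSectionVars false


/-- the vector `v + s w` (tangent vectors are vectors of `ℝⁿ` in Mathlib) -/
noncomputable def vcomb {n : ℕ} (v : EuclideanSpace ℝ (Fin n)) (s : ℝ)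
    (w : EuclideanSpace ℝ (Fin n)) : EuclideanSpace ℝ (Fin n) := v + s • w

/-- the operator `A` from functions to fields is linear on the smooth functions -/
def OpLinear {n : ℕ} {N : Type u} [TopologicalSpace N]
    [ChartedSpace (EuclideanSpace ℝ (Fin n)) N] (A : (N → ℝ) → Field n N) : Prop :=
  ∀ (h g : N → ℝ) (s : ℝ), Smooth n h → Smooth n g →
    ∀ x, A (fun y => h y + s * g y) x = vcomb (A h x) s (A g x)

/-- `dh (A h) ≥ 0` for all smooth `h` -/
def OpNonneg {n : ℕ} {N : Type u} [TopologicalSpace N]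
    [ChartedSpace (EuclideanSpace ℝ (Fin n)) N] (A : (N → ℝ) → Field n N) : Prop :=
  ∀ h : N → ℝ, Smooth n h → ∀ x, 0 ≤ dh n h x (A h x)

/-- a linear operator `A` which assigns to every smooth function `h` a `C^r` vector field `A h` along
which `h` does not decrease -/
structure DissOp (n : ℕ) (N : Type u) [TopologicalSpace N]
    [ChartedSpace (EuclideanSpace ℝ (Fin n)) N] [IsManifold (𝓡 n) ∞ N] (r : ℕ∞) where
  A : (N → ℝ) → Field n N
  linear : OpLinear A
  smooth : ∀ h : N → ℝ, Smooth n h → IsC r (A h)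
  nonneg : OpNonneg A

/-- the field `A h` -/
def DissOp.field {n : ℕ} {N : Type u} [TopologicalSpace N]
    [ChartedSpace (EuclideanSpace ℝ (Fin n)) N] [IsManifold (𝓡 n) ∞ N] {r : ℕ∞}
    (B : DissOp n N r) (h : N → ℝ) (hh : Smooth n h) : Fields n N r :=
  ⟨B.A h, B.smooth h hh⟩

theorem op_comb {r : ℕ∞} (B : DissOp n N r) {ι : Type} [Fintype ι] {h : N → ℝ}
    (hh : Smooth n h) {f : ι → N → ℝ} (hf : ∀ j, Smooth n (f j)) (a : ι → ℝ) (x : N) :
    B.A (fun x => h x + ∑ j, a j * f j x) x = B.A h x + ∑ j, a j • B.A (f j) x := by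
  classical
  suffices H : ∀ s : Finset ι, Smooth n (fun x => h x + ∑ j ∈ s, a j * f j x) ∧
      B.A (fun x => h x + ∑ j ∈ s, a j * f j x) x = B.A h x + ∑ j ∈ s, a j • B.A (f j) x from
    (H Finset.univ).2
  intro s
  induction s using Finset.induction_on with
  | empty =>
    have e : (fun x => h x + ∑ j ∈ (∅ : Finset ι), a j * f j x) = h := by
      funext y
      simp
    rw [e]
    exact ⟨hh, by simp⟩
  | insert i s hi ih =>
    have e : (fun x => h x + ∑ j ∈ insert i s, a j * f j x) =
        fun x => (fun x => h x + ∑ j ∈ s, a j * f j x) x + a i * f i x := by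
      funext y
      rw [Finset.sum_insert hi]
      ring
    rw [e]
    refine ⟨ContMDiff.add ih.1 (contMDiff_const.mul (hf i)), ?_⟩
    refine (B.linear _ _ _ ih.1 (hf i) x).trans ?_
    rw [ih.2, Finset.sum_insert hi, add_comm (a i • B.A (f i) x), ← add_assoc]
    rfl

variable [T2Space N] [CompactSpace N]

/-- **Dissipative Hamiltonian fields.** -/
theorem tensor_closure {r : ℕ∞} (hr : 1 ≤ r) (B : DissOp n N r) {h : N → ℝ}
    (hh : Smooth n h) : B.field h hh ∈ closure[crTop n N r] (Conv n N r) := by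
  obtain ⟨ι, _, f, hf, hgen⟩ := exists_generic n N
  obtain ⟨D, -, hDd, hD⟩ := hgen h hh
  let X := B.field h hh
  let Z : ι → Fields n N r := fun j => B.field (f j) (hf j)
  have hXa : ∀ a x, (comb X Z a).1 x = B.A (fun x => h x + ∑ j, a j * f j x) x := fun a x =>
    (op_comb B hh hf a x).symm
  have h1 : ∀ a ∈ D, comb X Z a ∈ closure[crTop n N r] (Conv n N r) := fun a ha =>
    conv_of_finite hr (smooth_comb hh hf a) (comb X Z a) (fun x => by
      rw [hXa]
      exact B.nonneg _ (smooth_comb hh hf a) x) (hD a ha)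
  have h0 : comb X Z 0 = X := by
    apply Subtype.ext
    funext x
    show X.1 x + ∑ j, (0 : ℝ) • _ = _
    simp
  have h2 : comb X Z 0 ∈ closure[crTop n N r] ((comb X Z) '' D) :=
    @image_closure_subset_closure_image _ _ _ (crTop n N r) _ _ (continuous_comb X Z) _
      (mem_image_of_mem _ (hDd 0))
  rw [h0] at h2
  have h3 := @closure_mono _ (crTop n N r) ((comb X Z) '' D) (closure[crTop n N r] (Conv n N r))
    (by rintro _ ⟨a, ha, rfl⟩; exact h1 a ha) _ h2
  rwa [@closure_closure _ (crTop n N r)] at h3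

end Pool.Agent.U1.VF
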